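import Mathlib
import Pool.Agent.Q286.BD.Spec

set_option autoImplicit false

/-!
# Project BD, job P6 (helper202): integration over the line
-/

namespace Pool.Agent.Q202.BD

open MeasureTheory Set Filter Topology
open Pool.Agent.Q286.BD

namespace Asm

/-- the cell of `g` -/
def Ag (G : Set ℝ) (g : ℝ) : Set ℝ := {t | |t - g| ≤ 1 ∧ ∀ g' ∈ G, |t - g| ≤ |t - g'|}

/-- the complement of the neighbourhoods -/
def Rg (G : Set ℝ) : Set ℝ := {t | ∀ g ∈ G, 1 ≤ |t - g|}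

/-- the range of the first bound -/
def Bl (L : ℝ) : Set ℝ := {t | |t| ≤ Real.exp (10 * L)}

/-- the integrand -/
noncomputable def ph (U : ℝ → ℝ → ℂ) (L t : ℝ) : ℝ := ‖U L t‖ ^ 2 / (1 / 4 + t ^ 2)

theorem ph_nonneg (U : ℝ → ℝ → ℂ) (L t : ℝ) : 0 ≤ ph U L t := by
  unfold ph
  positivity

theorem Ag_meas (G : Set ℝ) (g : ℝ) : MeasurableSet (Ag G g) := by
  have h1 : IsClosed {t : ℝ | |t - g| ≤ 1} :=
    isClosed_le (by fun_prop) continuous_const
  have h2 : IsClosed {t : ℝ | ∀ g' ∈ G, |t - g| ≤ |t - g'|} := by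
    have e : {t : ℝ | ∀ g' ∈ G, |t - g| ≤ |t - g'|} =
        ⋂ g' ∈ G, {t : ℝ | |t - g| ≤ |t - g'|} := by
      ext t
      simp
    rw [e]
    exact isClosed_biInter fun g' _ => isClosed_le (by fun_prop) (by fun_prop)
  exact (h1.inter h2).measurableSet

theorem Rg_meas (G : Set ℝ) : MeasurableSet (Rg G) := by
  have e : Rg G = ⋂ g' ∈ G, {t : ℝ | 1 ≤ |t - g'|} := by
    ext t
    simp [Rg]
  rw [e]
  exact (isClosed_biInter fun g' _ => isClosed_le continuous_const (by fun_prop)).measurableSet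

theorem Bl_meas (L : ℝ) : MeasurableSet (Bl L) :=
  (isClosed_le (by fun_prop) continuous_const).measurableSet

theorem ph_meas {U : ℝ → ℝ → ℂ} (hU : ∀ L, Measurable (U L)) (L : ℝ) : Measurable (ph U L) := by
  unfold ph
  exact ((hU L).norm.pow_const 2).div (by fun_prop)

section loc

variable {G : Set ℝ} (hfin : ∀ T : ℝ, (G ∩ Icc T (T + 1)).Finite)
include hfin

theorem fin2 (t : ℝ) : (G ∩ Icc (t - 1) (t + 1)).Finite := by
  refine ((hfin (t - 1)).union (hfin t)).subset ?_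
  rintro g ⟨hg, h1, h2⟩
  rcases le_total g t with h | h
  · exact Or.inl ⟨hg, h1, by linarith⟩
  · exact Or.inr ⟨hg, h, h2⟩

theorem cover (t : ℝ) : t ∈ Rg G ∨ ∃ g ∈ G, t ∈ Ag G g := by
  by_cases h : t ∈ Rg G
  · exact Or.inl h
  right
  have h1 : ∃ g ∈ G, |t - g| < 1 := by
    by_contra hcon
    refine h fun g hg => ?_
    by_contra h2
    exact hcon ⟨g, hg, not_le.1 h2⟩
  obtain ⟨g0, hg0, h2⟩ := h1
  have hmem : ∀ g ∈ G, |t - g| ≤ 1 → g ∈ G ∩ Icc (t - 1) (t + 1) := by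
    intro g hg h3
    rw [abs_le] at h3
    exact ⟨hg, by linarith [h3.2], by linarith [h3.1]⟩
  have hne : (G ∩ Icc (t - 1) (t + 1)).Nonempty := ⟨g0, hmem g0 hg0 h2.le⟩
  obtain ⟨g, hg, hmin⟩ := (fin2 hfin t).exists_minimalFor (fun g => |t - g|) _ hne
  have hmin' : ∀ g' ∈ G ∩ Icc (t - 1) (t + 1), |t - g| ≤ |t - g'| := by
    intro g' hg'
    rcases le_total (|t - g|) (|t - g'|) with h3 | h3
    · exact h3
    · exact hmin hg' h3
  have hg1 : |t - g| ≤ 1 := (hmin' g0 (hmem g0 hg0 h2.le)).trans h2.le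
  refine ⟨g, hg.1, hg1, fun g' hg' => ?_⟩
  by_cases h3 : |t - g'| ≤ 1
  · exact hmin' g' (hmem g' hg' h3)
  · exact hg1.trans (not_le.1 h3).le

theorem iso_pt {g : ℝ} (_hg : g ∈ G) : ∃ r : ℝ, 0 < r ∧ r ≤ 1 ∧
    ∀ t : ℝ, |t - g| ≤ r → t ∈ Ag G g := by
  have h1 : ((G ∩ Icc (g - 1) (g + 1)) \ {g}).Finite := (fin2 hfin g).sdiff
  obtain ⟨r, hr0, hr⟩ : ∃ r : ℝ, 0 < r ∧ ∀ g' ∈ (G ∩ Icc (g - 1) (g + 1)) \ {g}, r ≤ |g' - g| := by
    rcases ((G ∩ Icc (g - 1) (g + 1)) \ {g}).eq_empty_or_nonempty with h | h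
    · refine ⟨1, one_pos, fun g' hg' => ?_⟩
      rw [h] at hg'
      exact absurd hg' (Set.notMem_empty _)
    · obtain ⟨g1, hg1, hmin⟩ := h1.exists_minimalFor (fun g' => |g' - g|) _ h
      refine ⟨|g1 - g|, abs_pos.2 (sub_ne_zero.2 hg1.2), fun g' hg' => ?_⟩
      rcases le_total (|g1 - g|) (|g' - g|) with h3 | h3
      · exact h3
      · exact hmin hg' h3
  refine ⟨min 1 r / 2, by positivity, ?_, ?_⟩
  · have := min_le_left 1 r
    linarith
  intro t ht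
  have h2 := min_le_left 1 r
  have h3 := min_le_right 1 r
  refine ⟨by linarith, fun g' hg' => ?_⟩
  by_cases he : g' = g
  · rw [he]
  have h4 : min 1 r ≤ |g' - g| := by
    by_cases h5 : |g' - g| ≤ 1
    · refine h3.trans (hr g' ⟨⟨hg', ?_, ?_⟩, he⟩)
      · rw [abs_le] at h5
        linarith [h5.1]
      · rw [abs_le] at h5
        linarith [h5.2]
    · linarith [not_le.1 h5]
  have h6 : |g' - g| ≤ |t - g| + |t - g'| := by
    have := abs_sub_le g' t g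
    rw [abs_sub_comm g' t] at this
    linarith
  linarith

theorem countable_G : G.Countable := by
  have h1 : G ⊆ ⋃ n : ℤ, G ∩ Icc (n : ℝ) (n + 1) := by
    intro g hg
    rw [mem_iUnion]
    exact ⟨⌊g⌋, hg, Int.floor_le g, (Int.lt_floor_add_one g).le⟩
  exact (countable_iUnion fun n : ℤ => (hfin n).countable).mono h1

end loc

theorem rpow_comp {x y p : ℝ} (hx : 0 < x) (hxy : x ≤ 2 * y) (hp : 0 < p) (hp2 : p ≤ 2) :
    y ^ (-p) ≤ 4 * x ^ (-p) := by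
  have hy : 0 < y := by linarith
  rw [Real.rpow_neg hy.le, Real.rpow_neg hx.le]
  have h1 : x ^ p ≤ 4 * y ^ p := by
    calc x ^ p ≤ (2 * y) ^ p := Real.rpow_le_rpow hx.le hxy hp.le
      _ = 2 ^ p * y ^ p := Real.mul_rpow (by norm_num) hy.le
      _ ≤ 2 ^ (2 : ℝ) * y ^ p := by
          refine mul_le_mul_of_nonneg_right ?_ (Real.rpow_nonneg hy.le _)
          exact Real.rpow_le_rpow_of_exponent_le (by norm_num) hp2
      _ = 4 * y ^ p := by norm_num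
  have hx' : 0 < x ^ p := Real.rpow_pos_of_pos hx _
  have hy' : 0 < y ^ p := Real.rpow_pos_of_pos hy _
  rw [← div_eq_mul_inv, inv_eq_one_div, div_le_div_iff₀ hy' hx']
  linarith

/-- summability over the zeros -/
theorem sum_G {G : Set ℝ} {K0 : ℝ}
    (hG : ∀ T : ℝ, (G ∩ Icc T (T + 1)).Finite ∧
      ((G ∩ Icc T (T + 1)).ncard : ℝ) ≤ K0 * Real.log (|T| + 2)) :
    Summable fun g : G => (1 + |(g : ℝ)|) ^ (-(5 / 4 : ℝ)) := by
  have hK0 : 0 ≤ K0 := by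
    have h1 := (hG 0).2
    have h2 : (0 : ℝ) ≤ ((G ∩ Icc (0 : ℝ) (0 + 1)).ncard : ℝ) := Nat.cast_nonneg _
    rw [abs_zero, zero_add] at h1
    have h3 : 0 < Real.log (0 + 2) := Real.log_pos (by norm_num)
    rw [zero_add] at h2
    by_contra hcon
    have h4 := mul_neg_of_neg_of_pos (not_le.1 hcon) h3
    linarith
  have hnn : ∀ g : ℝ, 0 ≤ (1 + |g|) ^ (-(5 / 4 : ℝ)) := fun g =>
    Real.rpow_nonneg (by positivity) _
  -- the comparison series
  have hs : Summable fun n : ℤ => (64 * K0) * (1 + |(n : ℝ)|) ^ (-(9 / 8 : ℝ)) := by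
    refine Summable.mul_left _ ?_
    have h1 : Summable fun n : ℕ => (1 + |(n : ℝ)|) ^ (-(9 / 8 : ℝ)) := by
      have h2 := (Real.summable_one_div_nat_add_rpow 1 (9 / 8)).2 (by norm_num)
      refine h2.congr fun n => ?_
      have h3 : (0 : ℝ) ≤ n := Nat.cast_nonneg n
      rw [abs_of_nonneg h3, abs_of_nonneg (by linarith), Real.rpow_neg (by linarith), one_div,
        add_comm]
    refine summable_int_iff_summable_nat_and_neg.2 ⟨?_, ?_⟩
    · simpa using h1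
    · simpa using h1
  refine summable_of_sum_le (c := ∑' n : ℤ, (64 * K0) * (1 + |(n : ℝ)|) ^ (-(9 / 8 : ℝ)))
    (fun g => hnn g) fun s => ?_
  have hterm : ∀ n : ℤ, ∑ g ∈ s.filter (fun g : G => ⌊(g : ℝ)⌋ = n),
      (1 + |(g : ℝ)|) ^ (-(5 / 4 : ℝ)) ≤
      (64 * K0) * (1 + |(n : ℝ)|) ^ (-(9 / 8 : ℝ)) := by
    intro n
    have hn1 : 0 < 1 + |(n : ℝ)| := by positivity
    have h1 : ∀ g ∈ s.filter (fun g : G => ⌊(g : ℝ)⌋ = n),
        (1 + |(g : ℝ)|) ^ (-(5 / 4 : ℝ)) ≤ 4 * (1 + |(n : ℝ)|) ^ (-(5 / 4 : ℝ)) := by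
      intro g hg
      have h2 := (Finset.mem_filter.1 hg).2
      refine rpow_comp hn1 ?_ (by norm_num) (by norm_num)
      have h3 : |(n : ℝ)| ≤ |(g : ℝ)| + 1 := by
        have h4 := Int.floor_le (g : ℝ)
        have h5 := Int.lt_floor_add_one (g : ℝ)
        rw [h2] at h4 h5
        have h6 : |(n : ℝ) - g| ≤ 1 := by
          rw [abs_le]
          constructor <;> linarith
        have h7 : |(n : ℝ)| ≤ |(n : ℝ) - g| + |(g : ℝ)| := by
          have := abs_add_le ((n : ℝ) - g) g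
          rwa [sub_add_cancel] at this
        linarith
      have h8 := abs_nonneg (g : ℝ)
      linarith
    refine (Finset.sum_le_sum h1).trans ?_
    rw [Finset.sum_const, nsmul_eq_mul]
    have h9 : ((s.filter (fun g : G => ⌊(g : ℝ)⌋ = n)).card : ℝ) ≤
        K0 * Real.log (|(n : ℝ)| + 2) := by
      refine le_trans ?_ (hG n).2
      have h10 : (s.filter (fun g : G => ⌊(g : ℝ)⌋ = n)).card ≤ (G ∩ Icc (n : ℝ) (n + 1)).ncard := by
        rw [← Set.ncard_coe_finset, ← Set.ncard_image_of_injective _ Subtype.val_injective]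
        refine Set.ncard_le_ncard ?_ (hG n).1
        rintro x ⟨g, hg, rfl⟩
        have h2 := (Finset.mem_filter.1 (Finset.mem_coe.1 hg)).2
        have h4 := Int.floor_le (g : ℝ)
        have h5 := Int.lt_floor_add_one (g : ℝ)
        rw [h2] at h4 h5
        exact ⟨g.2, h4, h5.le⟩
      exact_mod_cast h10
    have h11 : Real.log (|(n : ℝ)| + 2) ≤ 16 * (1 + |(n : ℝ)|) ^ (1 / 8 : ℝ) := by
      have h12 : Real.log (|(n : ℝ)| + 2) ≤ (|(n : ℝ)| + 2) ^ (1 / 8 : ℝ) / (1 / 8) :=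
        Real.log_le_rpow_div (by positivity) (by norm_num)
      have h13 : (|(n : ℝ)| + 2) ^ (1 / 8 : ℝ) ≤ 2 * (1 + |(n : ℝ)|) ^ (1 / 8 : ℝ) := by
        calc (|(n : ℝ)| + 2) ^ (1 / 8 : ℝ) ≤ (2 * (1 + |(n : ℝ)|)) ^ (1 / 8 : ℝ) := by
              refine Real.rpow_le_rpow (by positivity) ?_ (by norm_num)
              linarith [abs_nonneg (n : ℝ)]
          _ = 2 ^ (1 / 8 : ℝ) * (1 + |(n : ℝ)|) ^ (1 / 8 : ℝ) :=
              Real.mul_rpow (by norm_num) hn1.le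
          _ ≤ 2 ^ (1 : ℝ) * (1 + |(n : ℝ)|) ^ (1 / 8 : ℝ) := by
              refine mul_le_mul_of_nonneg_right ?_ (Real.rpow_nonneg hn1.le _)
              exact Real.rpow_le_rpow_of_exponent_le (by norm_num) (by norm_num)
          _ = _ := by norm_num
      linarith
    have h14 : (1 + |(n : ℝ)|) ^ (1 / 8 : ℝ) * (1 + |(n : ℝ)|) ^ (-(5 / 4 : ℝ)) =
        (1 + |(n : ℝ)|) ^ (-(9 / 8 : ℝ)) := by
      rw [← Real.rpow_add hn1]
      norm_num
    have h15 : 0 ≤ (1 + |(n : ℝ)|) ^ (-(5 / 4 : ℝ)) := hnn _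
    calc ((s.filter (fun g : G => ⌊(g : ℝ)⌋ = n)).card : ℝ) * (4 * (1 + |(n : ℝ)|) ^ (-(5 / 4 : ℝ)))
        ≤ (K0 * (16 * (1 + |(n : ℝ)|) ^ (1 / 8 : ℝ))) * (4 * (1 + |(n : ℝ)|) ^ (-(5 / 4 : ℝ))) := by
          refine mul_le_mul_of_nonneg_right ?_ (by positivity)
          exact h9.trans (mul_le_mul_of_nonneg_left h11 hK0)
      _ = 64 * K0 * ((1 + |(n : ℝ)|) ^ (1 / 8 : ℝ) * (1 + |(n : ℝ)|) ^ (-(5 / 4 : ℝ))) := by ring
      _ = _ := by rw [h14]
  calc ∑ g ∈ s, (1 + |(g : ℝ)|) ^ (-(5 / 4 : ℝ))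
      = ∑ n ∈ s.image (fun g : G => ⌊(g : ℝ)⌋), ∑ g ∈ s.filter (fun g : G => ⌊(g : ℝ)⌋ = n),
          (1 + |(g : ℝ)|) ^ (-(5 / 4 : ℝ)) := by
        symm
        exact Finset.sum_fiberwise_of_maps_to (fun g hg => Finset.mem_image_of_mem _ hg) _
    _ ≤ ∑ n ∈ s.image (fun g : G => ⌊(g : ℝ)⌋), (64 * K0) * (1 + |(n : ℝ)|) ^ (-(9 / 8 : ℝ)) :=
        Finset.sum_le_sum fun n _ => hterm n
    _ ≤ _ := hs.sum_le_tsum _ fun n _ =>
        mul_nonneg (by positivity) (Real.rpow_nonneg (by positivity) _)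

theorem wt_le (p t : ℝ) : (1 + |t|) ^ p / (1 / 4 + t ^ 2) ≤ 8 * (1 + |t|) ^ (p - 2) := by
  have h0 : 0 < 1 + |t| := by positivity
  have h1 : (1 + |t|) ^ (2 : ℝ) ≤ 8 * (1 / 4 + t ^ 2) := by
    have e : (1 + |t|) ^ (2 : ℝ) = (1 + |t|) ^ (2 : ℕ) := by
      rw [← Real.rpow_natCast]
      norm_num
    rw [e, ← sq_abs t]
    nlinarith [sq_nonneg (|t| - 1)]
  have h2 : 0 < (1 + |t|) ^ p := Real.rpow_pos_of_pos h0 _
  have h3 : 0 < (1 + |t|) ^ (2 : ℝ) := Real.rpow_pos_of_pos h0 _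
  rw [Real.rpow_sub h0, div_le_iff₀ (by positivity), mul_div_assoc', div_mul_eq_mul_div,
    le_div_iff₀ h3]
  nlinarith

theorem sq_rpow {x : ℝ} (hx : 0 < x) : (x ^ (3 / 8 : ℝ)) ^ 2 = x ^ (3 / 4 : ℝ) := by
  rw [← Real.rpow_natCast, ← Real.rpow_mul hx.le]
  norm_num

section bounds

variable {G : Set ℝ} {U u : ℝ → ℝ → ℂ} {C L0 : ℝ}

/-- the constants of the cells -/
noncomputable def be (C g : ℝ) : ℝ := 32 * C ^ 2 * (1 + |g|) ^ (-(5 / 4 : ℝ))

theorem be_nonneg (C g : ℝ) : 0 ≤ be C g := by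
  unfold be
  exact mul_nonneg (by positivity) (Real.rpow_nonneg (by positivity) _)

theorem bound_aux {L t D : ℝ} (hC : 0 < C) (hD : 0 < D)
    (h : ‖U L t‖ ≤ C * (1 + |t|) ^ (3 / 8 : ℝ) / D) :
    ph U L t ≤ 8 * C ^ 2 * (1 + |t|) ^ (-(5 / 4 : ℝ)) * (D ^ 2)⁻¹ := by
  have h0 : 0 < 1 + |t| := by positivity
  have h1 : ‖U L t‖ ^ 2 ≤ C ^ 2 * (1 + |t|) ^ (3 / 4 : ℝ) * (D ^ 2)⁻¹ := by
    refine (pow_le_pow_left₀ (norm_nonneg _) h 2).trans (le_of_eq ?_)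
    rw [div_pow, mul_pow, sq_rpow h0, div_eq_mul_inv]
  have h2 := wt_le (3 / 4) t
  have h3 : (3 / 4 - 2 : ℝ) = -(5 / 4) := by norm_num
  rw [h3] at h2
  have h4 : 0 < 1 / 4 + t ^ 2 := by positivity
  unfold ph
  calc ‖U L t‖ ^ 2 / (1 / 4 + t ^ 2)
      ≤ (C ^ 2 * (1 + |t|) ^ (3 / 4 : ℝ) * (D ^ 2)⁻¹) / (1 / 4 + t ^ 2) :=
        div_le_div_of_nonneg_right h1 h4.le
    _ = C ^ 2 * (D ^ 2)⁻¹ * ((1 + |t|) ^ (3 / 4 : ℝ) / (1 / 4 + t ^ 2)) := by ring
    _ ≤ C ^ 2 * (D ^ 2)⁻¹ * (8 * (1 + |t|) ^ (-(5 / 4 : ℝ))) :=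
        mul_le_mul_of_nonneg_left h2 (by positivity)
    _ = _ := by ring

variable (hC : 0 < C) (hL0 : 1 ≤ L0)
  (H1 : ∀ L : ℝ, L0 ≤ L → ∀ t d : ℝ, |t| ≤ Real.exp (10 * L) → 0 < d → d ≤ 1 →
    (∀ g ∈ G, d ≤ |g - t|) → ‖U L t‖ ≤ C * (1 + |t|) ^ (3 / 8 : ℝ) / (1 + L * d))
include hC hL0 H1

theorem cell_bound {L g t : ℝ} (hL : L0 ≤ L) (ht : t ∈ Ag G g) (ht2 : t ∈ Bl L)
    (hne : t ≠ g) : ph U L t ≤ be C g * ((1 + L * |t - g|) ^ 2)⁻¹ := by
  have hLp : 0 < L := by linarith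
  have hd : 0 < |t - g| := abs_pos.2 (sub_ne_zero.2 hne)
  have h1 := H1 L hL t |t - g| ht2 hd ht.1 (fun g' hg' => by
    rw [abs_sub_comm g' t]
    exact ht.2 g' hg')
  have hD : 0 < 1 + L * |t - g| := by positivity
  refine (bound_aux hC hD h1).trans ?_
  refine mul_le_mul_of_nonneg_right ?_ (by positivity)
  have h2 : (1 + |t|) ^ (-(5 / 4 : ℝ)) ≤ 4 * (1 + |g|) ^ (-(5 / 4 : ℝ)) := by
    refine rpow_comp (by positivity) ?_ (by norm_num) (by norm_num)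
    have h3 : |g| ≤ |t - g| + |t| := by
      have := abs_sub_abs_le_abs_sub g t
      rw [abs_sub_comm g t] at this
      linarith
    have h4 := ht.1
    have h5 := abs_nonneg t
    linarith
  unfold be
  nlinarith [sq_nonneg C, mul_le_mul_of_nonneg_left h2 (show 0 ≤ 8 * C ^ 2 by positivity)]

theorem rest_bound {L t : ℝ} (hL : L0 ≤ L) (ht : t ∈ Rg G) (ht2 : t ∈ Bl L) :
    ph U L t ≤ 8 * C ^ 2 * (1 + |t|) ^ (-(5 / 4 : ℝ)) * ((1 + L) ^ 2)⁻¹ := by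
  have hLp : 0 < L := by linarith
  have h1 := H1 L hL t 1 ht2 one_pos le_rfl (fun g' hg' => by
    rw [abs_sub_comm g' t]
    exact ht g' hg')
  rw [mul_one] at h1
  exact bound_aux hC (by positivity) h1

end bounds

theorem tail_bound {U : ℝ → ℝ → ℂ} {C L0 : ℝ} (hC : 0 < C) (hL0 : 1 ≤ L0)
    (H2 : ∀ L : ℝ, L0 ≤ L → ∀ t : ℝ, Real.exp (10 * L) ≤ |t| →
      ‖U L t‖ ^ 2 ≤ C * Real.exp L * (1 + |t|) ^ (1 / 2 : ℝ)) {L t : ℝ} (hL : L0 ≤ L)
    (ht : t ∉ Bl L) : L * ph U L t ≤ 8 * C * Real.exp (-L) * (1 + |t|) ^ (-(6 / 5 : ℝ)) := by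
  have ht' : Real.exp (10 * L) ≤ |t| := (not_le.1 ht).le
  have h0 : 0 < 1 + |t| := by positivity
  have h1 := H2 L hL t ht'
  have hLp : 0 < L := by linarith
  have h4 : 0 < 1 / 4 + t ^ 2 := by positivity
  have h2 := wt_le (1 / 2) t
  have h3 : (1 / 2 - 2 : ℝ) = -(3 / 2) := by norm_num
  rw [h3] at h2
  have h5 : L ≤ Real.exp L := by linarith [Real.add_one_le_exp L]
  have h6 : Real.exp (3 * L) ≤ (1 + |t|) ^ (3 / 10 : ℝ) := by
    calc Real.exp (3 * L) = (Real.exp (10 * L)) ^ (3 / 10 : ℝ) := by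
          rw [← Real.exp_mul]
          congr 1
          ring
      _ ≤ (1 + |t|) ^ (3 / 10 : ℝ) := by
          refine Real.rpow_le_rpow (Real.exp_pos _).le ?_ (by norm_num)
          linarith
  have h7 : (1 + |t|) ^ (3 / 10 : ℝ) * (1 + |t|) ^ (-(3 / 2 : ℝ)) =
      (1 + |t|) ^ (-(6 / 5 : ℝ)) := by
    rw [← Real.rpow_add h0]
    norm_num
  have h8 : Real.exp L * Real.exp L = Real.exp (-L) * Real.exp (3 * L) := by
    rw [← Real.exp_add, ← Real.exp_add]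
    congr 1
    ring
  have h9 : 0 < (1 + |t|) ^ (-(3 / 2 : ℝ)) := Real.rpow_pos_of_pos h0 _
  unfold ph
  calc L * (‖U L t‖ ^ 2 / (1 / 4 + t ^ 2))
      ≤ Real.exp L * ((C * Real.exp L * (1 + |t|) ^ (1 / 2 : ℝ)) / (1 / 4 + t ^ 2)) := by
        refine mul_le_mul h5 (div_le_div_of_nonneg_right h1 h4.le) (by positivity)
          (Real.exp_pos _).le
    _ = C * (Real.exp L * Real.exp L) * ((1 + |t|) ^ (1 / 2 : ℝ) / (1 / 4 + t ^ 2)) := by ring
    _ ≤ C * (Real.exp L * Real.exp L) * (8 * (1 + |t|) ^ (-(3 / 2 : ℝ))) :=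
        mul_le_mul_of_nonneg_left h2 (by positivity)
    _ = 8 * C * Real.exp (-L) * (Real.exp (3 * L) * (1 + |t|) ^ (-(3 / 2 : ℝ))) := by
        rw [h8]
        ring
    _ ≤ 8 * C * Real.exp (-L) * ((1 + |t|) ^ (3 / 10 : ℝ) * (1 + |t|) ^ (-(3 / 2 : ℝ))) := by
        refine mul_le_mul_of_nonneg_left ?_ (by positivity)
        exact mul_le_mul_of_nonneg_right h6 h9.le
    _ = _ := by rw [h7]

/-- the integral of the majorant -/
noncomputable def kap (p : ℝ) : ℝ := ∫ x : ℝ, (1 + |x|) ^ (-p)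

theorem kap_int {p : ℝ} (hp : 1 < p) : Integrable fun x : ℝ => (1 + |x|) ^ (-p) := by
  have h := integrable_one_add_norm (E := ℝ) (μ := volume) (r := p) (by simpa using hp)
  simpa only [Real.norm_eq_abs] using h

/-- the rescaled integrand in a cell -/
noncomputable def Fc (G : Set ℝ) (U : ℝ → ℝ → ℂ) (L g x : ℝ) : ℝ :=
  (Ag G g ∩ Bl L).indicator (ph U L) (g + x / L)

theorem Fc_meas {G : Set ℝ} {U : ℝ → ℝ → ℂ} (hU : ∀ L, Measurable (U L)) (L g : ℝ) :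
    Measurable (Fc G U L g) := by
  unfold Fc
  exact ((ph_meas hU L).indicator ((Ag_meas G g).inter (Bl_meas L))).comp (by fun_prop)

theorem Fc_nonneg (G : Set ℝ) (U : ℝ → ℝ → ℂ) (L g x : ℝ) : 0 ≤ Fc G U L g x :=
  indicator_nonneg (fun t _ => ph_nonneg U L t) _

theorem Fc_integral (G : Set ℝ) (U : ℝ → ℝ → ℂ) {L : ℝ} (hL : 0 < L) (g : ℝ) :
    ∫ x : ℝ, Fc G U L g x = ∫ t in Ag G g ∩ Bl L, L * ph U L t := by
  unfold Fc
  have h1 := Measure.integral_comp_div (fun y => (Ag G g ∩ Bl L).indicator (ph U L) (g + y)) L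
  rw [h1, integral_add_left_eq_self (fun y => (Ag G g ∩ Bl L).indicator (ph U L) y) g,
    integral_indicator ((Ag_meas G g).inter (Bl_meas L)), abs_of_pos hL, smul_eq_mul,
    integral_const_mul]

section mainS

variable {G : Set ℝ} {K0 : ℝ} {U u : ℝ → ℝ → ℂ} {C L0 : ℝ}
  (hG : ∀ T : ℝ, (G ∩ Icc T (T + 1)).Finite ∧
    ((G ∩ Icc T (T + 1)).ncard : ℝ) ≤ K0 * Real.log (|T| + 2))
  (hC : 0 < C) (hL0 : 1 ≤ L0) (hU : ∀ L, Measurable (U L))
  (H1 : ∀ L : ℝ, L0 ≤ L → ∀ t d : ℝ, |t| ≤ Real.exp (10 * L) → 0 < d → d ≤ 1 →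
    (∀ g ∈ G, d ≤ |g - t|) → ‖U L t‖ ≤ C * (1 + |t|) ^ (3 / 8 : ℝ) / (1 + L * d))
  (H2 : ∀ L : ℝ, L0 ≤ L → ∀ t : ℝ, Real.exp (10 * L) ≤ |t| →
    ‖U L t‖ ^ 2 ≤ C * Real.exp L * (1 + |t|) ^ (1 / 2 : ℝ))
  (H3 : ∀ g ∈ G, ∀ x : ℝ, Tendsto (fun L : ℝ => U L (g + x / L)) atTop (𝓝 (u g x)))

include hC hL0 H1 in
theorem Fc_bound {L : ℝ} (hL : L0 ≤ L) (g x : ℝ) (hx : x ≠ 0) :
    ‖Fc G U L g x‖ ≤ be C g * (1 + |x|) ^ (-(2 : ℝ)) := by
  have hLp : 0 < L := by linarith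
  rw [Real.norm_eq_abs, abs_of_nonneg (Fc_nonneg G U L g x)]
  unfold Fc
  by_cases h : g + x / L ∈ Ag G g ∩ Bl L
  · rw [indicator_of_mem h]
    have h1 := cell_bound hC hL0 H1 hL h.1 h.2 (by
      intro h2
      have h3 : x / L = 0 := by linarith
      rcases div_eq_zero_iff.1 h3 with h4 | h4
      · exact hx h4
      · exact hLp.ne' h4)
    have h2 : L * |g + x / L - g| = |x| := by
      rw [add_sub_cancel_left, abs_div, abs_of_pos hLp]
      field_simp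
    rw [h2] at h1
    rw [Real.rpow_neg (by positivity)]
    have e : (1 + |x|) ^ (2 : ℝ) = (1 + |x|) ^ (2 : ℕ) := by
      rw [← Real.rpow_natCast]
      norm_num
    rw [e]
    exact h1
  · rw [indicator_of_notMem h]
    exact mul_nonneg (be_nonneg C g) (Real.rpow_nonneg (by positivity) _)

include hG H3 in
theorem Fc_tendsto {g : ℝ} (hg : g ∈ G) (x : ℝ) :
    Tendsto (fun L : ℝ => Fc G U L g x) atTop (𝓝 (‖u g x‖ ^ 2 / (1 / 4 + g ^ 2))) := by
  obtain ⟨r, hr0, hr1, hr⟩ := iso_pt (fun T => (hG T).1) hg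
  have hx0 : Tendsto (fun L : ℝ => x / L) atTop (𝓝 0) := tendsto_const_nhds.div_atTop tendsto_id
  have h1 : ∀ᶠ L : ℝ in atTop, |x / L| ≤ r := by
    have h2 := hx0.abs
    rw [abs_zero] at h2
    exact h2.eventually_le_const hr0
  have h3 : ∀ᶠ L : ℝ in atTop, |g| + 1 ≤ Real.exp (10 * L) := by
    have h4 : Tendsto (fun L : ℝ => Real.exp (10 * L)) atTop atTop :=
      Real.tendsto_exp_atTop.comp (tendsto_id.const_mul_atTop (by norm_num))
    exact h4.eventually_ge_atTop _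
  have h5 : Tendsto (fun L : ℝ => ph U L (g + x / L)) atTop
      (𝓝 (‖u g x‖ ^ 2 / (1 / 4 + g ^ 2))) := by
    unfold ph
    refine Tendsto.div (((H3 g hg x).norm).pow 2) ?_ (by positivity)
    have h6 : Tendsto (fun L : ℝ => g + x / L) atTop (𝓝 (g + 0)) := hx0.const_add g
    rw [add_zero] at h6
    exact (h6.pow 2).const_add _
  refine h5.congr' ?_
  filter_upwards [h1, h3] with L k1 k2
  unfold Fc
  rw [indicator_of_mem]
  refine ⟨hr _ ?_, ?_⟩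
  · rw [add_sub_cancel_left]
    exact k1
  · change |g + x / L| ≤ _
    have := abs_add_le g (x / L)
    linarith

include hG hC hL0 hU H1 H3 in
theorem lim_int {g : ℝ} (hg : g ∈ G) :
    Integrable (fun x : ℝ => ‖u g x‖ ^ 2 / (1 / 4 + g ^ 2)) ∧
    Tendsto (fun L : ℝ => ∫ x : ℝ, Fc G U L g x) atTop
      (𝓝 (∫ x : ℝ, ‖u g x‖ ^ 2 / (1 / 4 + g ^ 2))) ∧
    (∫ x : ℝ, ‖u g x‖ ^ 2 / (1 / 4 + g ^ 2)) ≤ be C g * kap 2 := by
  have hne : ∀ᵐ x : ℝ, x ≠ 0 := by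
    rw [ae_iff]
    simp
  have hdom : Integrable fun x : ℝ => be C g * (1 + |x|) ^ (-(2 : ℝ)) :=
    (kap_int (by norm_num)).const_mul _
  have hb : ∀ᶠ L : ℝ in atTop, ∀ᵐ x : ℝ, ‖Fc G U L g x‖ ≤ be C g * (1 + |x|) ^ (-(2 : ℝ)) := by
    filter_upwards [eventually_ge_atTop L0] with L hL
    filter_upwards [hne] with x hx
    exact Fc_bound hC hL0 H1 hL g x hx
  have ht : ∀ᵐ x : ℝ, Tendsto (fun L : ℝ => Fc G U L g x) atTop
      (𝓝 (‖u g x‖ ^ 2 / (1 / 4 + g ^ 2))) :=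
    Eventually.of_forall fun x => Fc_tendsto hG H3 hg x
  have h1 : Tendsto (fun L : ℝ => ∫ x : ℝ, Fc G U L g x) atTop
      (𝓝 (∫ x : ℝ, ‖u g x‖ ^ 2 / (1 / 4 + g ^ 2))) :=
    tendsto_integral_filter_of_dominated_convergence _
      (Eventually.of_forall fun L => (Fc_meas hU L g).aestronglyMeasurable) hb hdom ht
  have hm : AEStronglyMeasurable (fun x : ℝ => ‖u g x‖ ^ 2 / (1 / 4 + g ^ 2)) volume :=
    aestronglyMeasurable_of_tendsto_ae atTop
      (fun L => (Fc_meas hU L g).aestronglyMeasurable) ht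
  have hle : ∀ᵐ x : ℝ, ‖u g x‖ ^ 2 / (1 / 4 + g ^ 2) ≤ be C g * (1 + |x|) ^ (-(2 : ℝ)) := by
    filter_upwards [hne] with x hx
    refine le_of_tendsto (Fc_tendsto hG H3 hg x) ?_
    filter_upwards [eventually_ge_atTop L0] with L hL
    exact (le_abs_self _).trans (Fc_bound hC hL0 H1 hL g x hx)
  have hi : Integrable (fun x : ℝ => ‖u g x‖ ^ 2 / (1 / 4 + g ^ 2)) := by
    refine hdom.mono' hm ?_
    filter_upwards [hle] with x hx
    rw [Real.norm_eq_abs, abs_of_nonneg (by positivity)]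
    exact hx
  refine ⟨hi, h1, ?_⟩
  unfold kap
  rw [← integral_const_mul]
  exact integral_mono_ae hi hdom hle

include hC hL0 H1 in
theorem Fc_int_le {L : ℝ} (hL : L0 ≤ L) (g : ℝ) : ∫ x : ℝ, Fc G U L g x ≤ be C g * kap 2 := by
  have hne : ∀ᵐ x : ℝ, x ≠ 0 := by
    rw [ae_iff]
    simp
  have hdom : Integrable fun x : ℝ => be C g * (1 + |x|) ^ (-(2 : ℝ)) :=
    (kap_int (by norm_num)).const_mul _
  unfold kap
  rw [← integral_const_mul]
  refine integral_mono_of_nonneg (Eventually.of_forall fun x => Fc_nonneg G U L g x) hdom ?_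
  filter_upwards [hne] with x hx
  exact (le_abs_self _).trans (Fc_bound hC hL0 H1 hL g x hx)

include hC hL0 hU H1 in
theorem cell_int {L : ℝ} (hL : L0 ≤ L) (g : ℝ) :
    IntegrableOn (fun t => L * ph U L t) (Ag G g ∩ Bl L) := by
  have hLp : 0 < L := by linarith
  have hne : ∀ᵐ x : ℝ, x ≠ g := by
    rw [ae_iff]
    simp
  have hfin : volume (Ag G g ∩ Bl L) ≠ ⊤ := by
    have h1 : Ag G g ∩ Bl L ⊆ Icc (g - 1) (g + 1) := by
      intro t ht
      have h2 := ht.1.1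
      rw [abs_le] at h2
      exact ⟨by linarith [h2.1], by linarith [h2.2]⟩
    refine ne_top_of_le_ne_top ?_ (measure_mono h1)
    rw [Real.volume_Icc]
    exact ENNReal.ofReal_ne_top
  refine Measure.integrableOn_of_bounded (M := L * be C g) hfin
    ((ph_meas hU L).const_mul L).aestronglyMeasurable ?_
  rw [ae_restrict_iff' ((Ag_meas G g).inter (Bl_meas L))]
  filter_upwards [hne] with t ht htA
  have h1 := cell_bound hC hL0 H1 hL htA.1 htA.2 ht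
  rw [Real.norm_eq_abs, abs_of_nonneg (mul_nonneg hLp.le (ph_nonneg U L t))]
  refine mul_le_mul_of_nonneg_left (h1.trans ?_) hLp.le
  have h2 : ((1 + L * |t - g|) ^ 2)⁻¹ ≤ 1 := by
    refine inv_le_one_of_one_le₀ ?_
    refine one_le_pow₀ ?_
    have : 0 ≤ L * |t - g| := by positivity
    linarith
  calc be C g * ((1 + L * |t - g|) ^ 2)⁻¹ ≤ be C g * 1 :=
        mul_le_mul_of_nonneg_left h2 (be_nonneg C g)
    _ = be C g := mul_one _

include hG hC hL0 hU H1 H2 in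
theorem total {L : ℝ} (hL : L0 ≤ L) : Integrable (fun t => L * ph U L t) ∧
    ∫ t : ℝ, L * ph U L t ≤ 8 * C * Real.exp (-L) * kap (6 / 5) +
      8 * C ^ 2 * kap (5 / 4) * L⁻¹ + ∑' g : G, ∫ x : ℝ, Fc G U L g x := by
  have hLp : 0 < L := by linarith
  have hcount : Countable G := (countable_G fun T => (hG T).1).to_subtype
  have hnn : ∀ t, 0 ≤ L * ph U L t := fun t => mul_nonneg hLp.le (ph_nonneg U L t)
  have hsum : Summable fun g : G => ∫ x : ℝ, Fc G U L g x := by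
    refine Summable.of_nonneg_of_le (fun g => integral_nonneg fun x => Fc_nonneg G U L g x)
      (fun g => Fc_int_le hC hL0 H1 hL g) ?_
    have h1 := (sum_G hG).mul_left (32 * C ^ 2 * kap 2)
    refine h1.congr fun g => ?_
    unfold be
    ring
  have hs0 : 0 ≤ ∑' g : G, ∫ x : ℝ, Fc G U L g x :=
    tsum_nonneg fun g => integral_nonneg fun x => Fc_nonneg G U L g x
  have hk1 : 0 ≤ kap (6 / 5) := integral_nonneg fun x => Real.rpow_nonneg (by positivity) _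
  have hk2 : 0 ≤ kap (5 / 4) := integral_nonneg fun x => Real.rpow_nonneg (by positivity) _
  have hcov : (univ : Set ℝ) ⊆ (Bl L)ᶜ ∪ (Rg G ∩ Bl L) ∪ ⋃ g : G, Ag G g ∩ Bl L := by
    intro t _
    by_cases hb : t ∈ Bl L
    · rcases cover (fun T => (hG T).1) t with h | ⟨g, hg, h⟩
      · exact Or.inl (Or.inr ⟨h, hb⟩)
      · exact Or.inr (mem_iUnion.2 ⟨⟨g, hg⟩, h, hb⟩)
    · exact Or.inl (Or.inl hb)
  have e1 : ∫⁻ t in (Bl L)ᶜ, ENNReal.ofReal (L * ph U L t) ≤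
      ENNReal.ofReal (8 * C * Real.exp (-L) * kap (6 / 5)) := by
    have hi : Integrable fun t : ℝ => 8 * C * Real.exp (-L) * (1 + |t|) ^ (-(6 / 5 : ℝ)) :=
      (kap_int (by norm_num)).const_mul _
    calc ∫⁻ t in (Bl L)ᶜ, ENNReal.ofReal (L * ph U L t)
        ≤ ∫⁻ t in (Bl L)ᶜ, ENNReal.ofReal (8 * C * Real.exp (-L) * (1 + |t|) ^ (-(6 / 5 : ℝ))) := by
          refine setLIntegral_mono' (Bl_meas L).compl fun t ht => ?_
          exact ENNReal.ofReal_le_ofReal (tail_bound hC hL0 H2 hL ht)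
      _ ≤ ∫⁻ t, ENNReal.ofReal (8 * C * Real.exp (-L) * (1 + |t|) ^ (-(6 / 5 : ℝ))) :=
          setLIntegral_le_lintegral _ _
      _ = ENNReal.ofReal (∫ t : ℝ, 8 * C * Real.exp (-L) * (1 + |t|) ^ (-(6 / 5 : ℝ))) := by
          rw [ofReal_integral_eq_lintegral_ofReal hi]
          exact Eventually.of_forall fun t =>
            mul_nonneg (by positivity) (Real.rpow_nonneg (by positivity) _)
      _ = _ := by
          rw [integral_const_mul]
          rfl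
  have e2 : ∫⁻ t in Rg G ∩ Bl L, ENNReal.ofReal (L * ph U L t) ≤
      ENNReal.ofReal (8 * C ^ 2 * kap (5 / 4) * L⁻¹) := by
    have hi : Integrable fun t : ℝ => 8 * C ^ 2 * L⁻¹ * (1 + |t|) ^ (-(5 / 4 : ℝ)) :=
      (kap_int (by norm_num)).const_mul _
    calc ∫⁻ t in Rg G ∩ Bl L, ENNReal.ofReal (L * ph U L t)
        ≤ ∫⁻ t in Rg G ∩ Bl L, ENNReal.ofReal (8 * C ^ 2 * L⁻¹ * (1 + |t|) ^ (-(5 / 4 : ℝ))) := by
          refine setLIntegral_mono' ((Rg_meas G).inter (Bl_meas L)) fun t ht => ?_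
          refine ENNReal.ofReal_le_ofReal ?_
          have h1 := rest_bound hC hL0 H1 hL ht.1 ht.2
          have h2 : L * ((1 + L) ^ 2)⁻¹ ≤ L⁻¹ := by
            rw [← div_eq_mul_inv, inv_eq_one_div, div_le_div_iff₀ (by positivity) hLp]
            nlinarith
          have h3 : 0 ≤ (1 + |t|) ^ (-(5 / 4 : ℝ)) := Real.rpow_nonneg (by positivity) _
          calc L * ph U L t ≤ L * (8 * C ^ 2 * (1 + |t|) ^ (-(5 / 4 : ℝ)) * ((1 + L) ^ 2)⁻¹) :=
                mul_le_mul_of_nonneg_left h1 hLp.le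
            _ = 8 * C ^ 2 * (1 + |t|) ^ (-(5 / 4 : ℝ)) * (L * ((1 + L) ^ 2)⁻¹) := by ring
            _ ≤ 8 * C ^ 2 * (1 + |t|) ^ (-(5 / 4 : ℝ)) * L⁻¹ :=
                mul_le_mul_of_nonneg_left h2 (by positivity)
            _ = _ := by ring
      _ ≤ ∫⁻ t, ENNReal.ofReal (8 * C ^ 2 * L⁻¹ * (1 + |t|) ^ (-(5 / 4 : ℝ))) :=
          setLIntegral_le_lintegral _ _
      _ = ENNReal.ofReal (∫ t : ℝ, 8 * C ^ 2 * L⁻¹ * (1 + |t|) ^ (-(5 / 4 : ℝ))) := by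
          rw [ofReal_integral_eq_lintegral_ofReal hi]
          exact Eventually.of_forall fun t =>
            mul_nonneg (by positivity) (Real.rpow_nonneg (by positivity) _)
      _ = _ := by
          rw [integral_const_mul]
          congr 1
          unfold kap
          ring
  have e3 : ∑' g : G, ∫⁻ t in Ag G g ∩ Bl L, ENNReal.ofReal (L * ph U L t) =
      ENNReal.ofReal (∑' g : G, ∫ x : ℝ, Fc G U L g x) := by
    rw [ENNReal.ofReal_tsum_of_nonneg (f := fun g : G => ∫ x : ℝ, Fc G U L g x)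
      (fun g => integral_nonneg fun x => Fc_nonneg G U L g x) hsum]
    refine tsum_congr fun g => ?_
    rw [Fc_integral G U hLp, ofReal_integral_eq_lintegral_ofReal (cell_int hC hL0 hU H1 hL g)]
    exact Eventually.of_forall fun t => hnn t
  have hall : ∫⁻ t : ℝ, ENNReal.ofReal (L * ph U L t) ≤
      ENNReal.ofReal (8 * C * Real.exp (-L) * kap (6 / 5) +
      8 * C ^ 2 * kap (5 / 4) * L⁻¹ + ∑' g : G, ∫ x : ℝ, Fc G U L g x) := by
    calc ∫⁻ t : ℝ, ENNReal.ofReal (L * ph U L t)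
        = ∫⁻ t in univ, ENNReal.ofReal (L * ph U L t) := by rw [setLIntegral_univ]
      _ ≤ ∫⁻ t in (Bl L)ᶜ ∪ (Rg G ∩ Bl L) ∪ ⋃ g : G, Ag G g ∩ Bl L,
            ENNReal.ofReal (L * ph U L t) := lintegral_mono_set hcov
      _ ≤ (∫⁻ t in (Bl L)ᶜ ∪ (Rg G ∩ Bl L), ENNReal.ofReal (L * ph U L t)) +
            ∫⁻ t in ⋃ g : G, Ag G g ∩ Bl L, ENNReal.ofReal (L * ph U L t) :=
          lintegral_union_le _ _ _
      _ ≤ ((∫⁻ t in (Bl L)ᶜ, ENNReal.ofReal (L * ph U L t)) +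
            ∫⁻ t in Rg G ∩ Bl L, ENNReal.ofReal (L * ph U L t)) +
            ∑' g : G, ∫⁻ t in Ag G g ∩ Bl L, ENNReal.ofReal (L * ph U L t) :=
          add_le_add (lintegral_union_le _ _ _) (lintegral_iUnion_le _ _)
      _ ≤ (ENNReal.ofReal (8 * C * Real.exp (-L) * kap (6 / 5)) +
            ENNReal.ofReal (8 * C ^ 2 * kap (5 / 4) * L⁻¹)) +
            ENNReal.ofReal (∑' g : G, ∫ x : ℝ, Fc G U L g x) :=
          add_le_add (add_le_add e1 e2) (le_of_eq e3)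
      _ = _ := by
          rw [← ENNReal.ofReal_add (by positivity) (by positivity),
            ← ENNReal.ofReal_add (by positivity) hs0]
  have hmeas : AEStronglyMeasurable (fun t => L * ph U L t) volume :=
    ((ph_meas hU L).const_mul L).aestronglyMeasurable
  have hint : Integrable (fun t => L * ph U L t) := by
    refine ⟨hmeas, ?_⟩
    rw [hasFiniteIntegral_iff_ofReal (Eventually.of_forall hnn)]
    exact lt_of_le_of_lt hall ENNReal.ofReal_lt_top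
  refine ⟨hint, ?_⟩
  rw [← ofReal_integral_eq_lintegral_ofReal hint (Eventually.of_forall hnn)] at hall
  exact (ENNReal.ofReal_le_ofReal_iff (by positivity)).1 hall

end mainS

end Asm

open Asm
/-- JOB P6. -/
theorem asm : S_asm := by
  intro G K0 hG U u C L0 hC hL0 hU H1 H2 H3
  have hA : ∀ g ∈ G, Integrable (fun x : ℝ => ‖u g x‖ ^ 2) := by
    intro g hg
    have h1 := (lim_int hG hC hL0 hU H1 H3 hg).1.const_mul (1 / 4 + g ^ 2)
    refine h1.congr (Eventually.of_forall fun x => ?_)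
    have h2 : (1 / 4 + g ^ 2) ≠ 0 := by positivity
    change (1 / 4 + g ^ 2) * (‖u g x‖ ^ 2 / (1 / 4 + g ^ 2)) = ‖u g x‖ ^ 2
    field_simp
  have hbs : Summable fun g : G => be C g * kap 2 := by
    have h1 := (sum_G hG).mul_left (32 * C ^ 2 * kap 2)
    refine h1.congr fun g => ?_
    unfold be
    ring
  have hdiv : ∀ g : ℝ, (∫ x : ℝ, ‖u g x‖ ^ 2) / (1 / 4 + g ^ 2) =
      ∫ x : ℝ, ‖u g x‖ ^ 2 / (1 / 4 + g ^ 2) := fun g => (integral_div _ _).symm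
  have hB : Summable (fun g : G => (∫ x : ℝ, ‖u g x‖ ^ 2) / (1 / 4 + (g : ℝ) ^ 2)) := by
    refine Summable.of_nonneg_of_le (fun g => ?_) (fun g => ?_) hbs
    · exact div_nonneg (integral_nonneg fun x => sq_nonneg _) (by positivity)
    · rw [hdiv]
      exact (lim_int hG hC hL0 hU H1 H3 g.2).2.2
  refine ⟨hA, hB, fun L hL => ?_, fun η hη => ?_⟩
  · have hLp : 0 < L := by linarith
    have h1 := (total hG hC hL0 hU H1 H2 hL).1.const_mul L⁻¹
    refine h1.congr (Eventually.of_forall fun t => ?_)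
    change L⁻¹ * (L * ph U L t) = ph U L t
    rw [← mul_assoc, inv_mul_cancel₀ hLp.ne', one_mul]
  · have ht1 : Tendsto (fun L : ℝ => 8 * C * Real.exp (-L) * kap (6 / 5) +
        8 * C ^ 2 * kap (5 / 4) * L⁻¹ + ∑' g : G, ∫ x : ℝ, Fc G U L g x) atTop
        (𝓝 (8 * C * 0 * kap (6 / 5) + 8 * C ^ 2 * kap (5 / 4) * 0 +
          ∑' g : G, ∫ x : ℝ, ‖u g x‖ ^ 2 / (1 / 4 + (g : ℝ) ^ 2))) := by
      refine Tendsto.add (Tendsto.add ?_ ?_) ?_
      · exact (Real.tendsto_exp_neg_atTop_nhds_zero.const_mul _).mul_const _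
      · exact tendsto_inv_atTop_zero.const_mul _
      · refine tendsto_tsum_of_dominated_convergence hbs
          (fun g => (lim_int hG hC hL0 hU H1 H3 g.2).2.1) ?_
        filter_upwards [eventually_ge_atTop L0] with L hL g
        rw [Real.norm_eq_abs, abs_of_nonneg (integral_nonneg fun x => Fc_nonneg G U L g x)]
        exact Fc_int_le hC hL0 H1 hL g
    have hlt : 8 * C * 0 * kap (6 / 5) + 8 * C ^ 2 * kap (5 / 4) * 0 +
          ∑' g : G, ∫ x : ℝ, ‖u g x‖ ^ 2 / (1 / 4 + (g : ℝ) ^ 2) <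
          ∑' g : G, (∫ x : ℝ, ‖u g x‖ ^ 2) / (1 / 4 + (g : ℝ) ^ 2) + η := by
      have e : ∑' g : G, (∫ x : ℝ, ‖u g x‖ ^ 2) / (1 / 4 + (g : ℝ) ^ 2) =
          ∑' g : G, ∫ x : ℝ, ‖u g x‖ ^ 2 / (1 / 4 + (g : ℝ) ^ 2) :=
        tsum_congr fun g => hdiv g
      rw [e]
      linarith
    filter_upwards [ht1.eventually_lt_const hlt, eventually_ge_atTop L0] with L h1 hL
    have h2 := (total hG hC hL0 hU H1 H2 hL).2
    rw [integral_const_mul] at h2
    exact h2.trans h1.le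

end Pool.Agent.Q202.BD
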