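import Mathlib
import Pool.Agent.Q286.BD.Spec

set_option autoImplicit false

/-!
# Project BD, job P7b (helper202): the kernel of evaluation at `0` on polynomials of degree `< m`
-/

namespace Pool.Agent.Q202.BD

open Polynomial Finset

/-- the density `m (1 - X)^(m-1)` -/
noncomputable def fleg (m : ℕ) : ℝ[X] := C (m : ℝ) * (1 - X) ^ (m - 1)

/-- the kernel of the evaluation at `0` -/
noncomputable def pleg (m : ℕ) : ℝ[X] :=
  ∑ j ∈ range m, C (1 / (j.factorial : ℝ)) * derivative^[j] (X ^ j * fleg m)

theorem int_poly (p : ℝ[X]) : IntervalIntegrable (fun u => p.eval u) MeasureTheory.volume 0 1 :=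
  p.continuous.intervalIntegrable _ _

/-- one integration by parts -/
theorem parts (F q : ℝ[X]) (h0 : F.eval 0 = 0) (h1 : F.eval 1 = 0) :
    ∫ u in (0 : ℝ)..1, (derivative F).eval u * q.eval u =
      -∫ u in (0 : ℝ)..1, F.eval u * (derivative q).eval u := by
  have h := intervalIntegral.integral_mul_deriv_eq_deriv_mul
    (a := (0 : ℝ)) (b := 1) (u := fun u => q.eval u) (v := fun u => F.eval u)
    (u' := fun u => (derivative q).eval u) (v' := fun u => (derivative F).eval u)
    (fun x _ => q.hasDerivAt x) (fun x _ => F.hasDerivAt x)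
    ((derivative q).continuous.intervalIntegrable _ _)
    ((derivative F).continuous.intervalIntegrable _ _)
  rw [h0, h1, mul_zero, mul_zero, sub_zero, zero_sub] at h
  have e1 : (fun u : ℝ => (derivative F).eval u * q.eval u) =
      fun u => q.eval u * (derivative F).eval u := by
    funext u
    ring
  have e2 : (fun u : ℝ => F.eval u * (derivative q).eval u) =
      fun u => (derivative q).eval u * F.eval u := by
    funext u
    ring
  rw [e1, e2, h]

/-- iterated integration by parts -/
theorem parts_iter (F : ℝ[X]) (n : ℕ) (h0 : ∀ k < n, (derivative^[k] F).eval 0 = 0)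
    (h1 : ∀ k < n, (derivative^[k] F).eval 1 = 0) : ∀ i ≤ n, ∀ q : ℝ[X],
    ∫ u in (0 : ℝ)..1, (derivative^[i] F).eval u * q.eval u =
      (-1) ^ i * ∫ u in (0 : ℝ)..1, F.eval u * (derivative^[i] q).eval u := by
  intro i
  induction i with
  | zero =>
    intro _ q
    simp
  | succ i ih =>
    intro hi q
    rw [Function.iterate_succ_apply', parts _ q (h0 i (by omega)) (h1 i (by omega)),
      ih (by omega) (derivative q), ← Function.iterate_succ_apply, pow_succ]
    ring

theorem vanish0 (m j k : ℕ) (hk : k < j) : (derivative^[k] (X ^ j * fleg m)).eval 0 = 0 := by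
  have h1 : (X : ℝ[X]) ^ (j - k) ∣ derivative^[k] (X ^ j * fleg m) :=
    Polynomial.pow_sub_dvd_iterate_derivative_of_pow_dvd k (dvd_mul_right _ _)
  obtain ⟨r, hr⟩ := h1
  rw [hr, eval_mul, eval_pow, eval_X, zero_pow (by omega), zero_mul]

theorem vanish1 (m j k : ℕ) (hj : j < m) (hk : k < j) :
    (derivative^[k] (X ^ j * fleg m)).eval 1 = 0 := by
  have h0 : (1 - X : ℝ[X]) ^ (m - 1) ∣ X ^ j * fleg m := by
    unfold fleg
    exact ⟨X ^ j * C (m : ℝ), by ring⟩
  have h1 : (1 - X : ℝ[X]) ^ (m - 1 - k) ∣ derivative^[k] (X ^ j * fleg m) :=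
    Polynomial.pow_sub_dvd_iterate_derivative_of_pow_dvd k h0
  obtain ⟨r, hr⟩ := h1
  rw [hr, eval_mul, eval_pow, eval_sub, eval_one, eval_X, sub_self, zero_pow (by omega), zero_mul]

theorem X_mul_iter (j k : ℕ) :
    (X : ℝ[X]) ^ j * derivative^[j] (X ^ k) = C ((k.descFactorial j : ℕ) : ℝ) * X ^ k := by
  rw [Polynomial.iterate_derivative_X_pow_eq_natCast_mul]
  by_cases h : j ≤ k
  · have e : (X : ℝ[X]) ^ k = X ^ j * X ^ (k - j) := by
      rw [← pow_add, Nat.add_sub_cancel' h]
    rw [e]
    simp
    ring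
  · have e : k.descFactorial j = 0 := Nat.descFactorial_eq_zero_iff_lt.2 (not_le.1 h)
    rw [e]
    simp

theorem term_int (m j k : ℕ) (hj : j < m) :
    ∫ u in (0 : ℝ)..1, (C (1 / (j.factorial : ℝ)) * derivative^[j] (X ^ j * fleg m)).eval u *
      (X ^ k : ℝ[X]).eval u =
    ((-1) ^ j * (k.choose j : ℝ)) * ∫ u in (0 : ℝ)..1, (fleg m).eval u * (X ^ k : ℝ[X]).eval u := by
  have e1 : (fun u : ℝ => (C (1 / (j.factorial : ℝ)) * derivative^[j] (X ^ j * fleg m)).eval u *
      (X ^ k : ℝ[X]).eval u) = fun u => (1 / (j.factorial : ℝ)) *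
        ((derivative^[j] (X ^ j * fleg m)).eval u * (X ^ k : ℝ[X]).eval u) := by
    funext u
    rw [eval_mul, eval_C]
    ring
  rw [e1, intervalIntegral.integral_const_mul,
    parts_iter (X ^ j * fleg m) j (fun i hi => vanish0 m j i hi)
      (fun i hi => vanish1 m j i hj hi) j le_rfl (X ^ k)]
  have e2 : (fun u : ℝ => (X ^ j * fleg m).eval u * (derivative^[j] (X ^ k : ℝ[X])).eval u) =
      fun u => ((k.descFactorial j : ℕ) : ℝ) * ((fleg m).eval u * (X ^ k : ℝ[X]).eval u) := by
    funext u
    have h := congrArg (Polynomial.eval u) (X_mul_iter j k)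
    rw [eval_mul, eval_mul, eval_C] at h
    rw [eval_mul]
    linear_combination (fleg m).eval u * h
  rw [e2, intervalIntegral.integral_const_mul]
  have e3 : ((k.descFactorial j : ℕ) : ℝ) = (j.factorial : ℝ) * (k.choose j : ℝ) := by
    rw [Nat.descFactorial_eq_factorial_mul_choose]
    push_cast
    rfl
  rw [e3]
  have e4 : (j.factorial : ℝ) ≠ 0 := by positivity
  field_simp

theorem fleg_int (m : ℕ) (hm : 1 ≤ m) : ∫ u in (0 : ℝ)..1, (fleg m).eval u = 1 := by
  have h1 : ∀ u : ℝ, HasDerivAt (fun u : ℝ => -(1 - u) ^ m) ((fleg m).eval u) u := by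
    intro u
    have h2 : HasDerivAt (fun u : ℝ => 1 - u) (-1) u := by
      simpa using (hasDerivAt_id u).const_sub 1
    have h3 := (h2.pow m).neg
    have e : -((m : ℝ) * (1 - u) ^ (m - 1) * -1) = (fleg m).eval u := by
      unfold fleg
      simp
    rw [← e]
    exact h3
  rw [intervalIntegral.integral_eq_sub_of_hasDerivAt (fun u _ => h1 u)
    ((fleg m).continuous.intervalIntegrable _ _)]
  simp [zero_pow (show m ≠ 0 by omega)]

theorem alt_sum (m k : ℕ) (hk : k < m) :
    ∑ j ∈ range m, (-1 : ℝ) ^ j * (k.choose j : ℝ) = if k = 0 then 1 else 0 := by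
  have h1 : ∑ j ∈ range m, (-1 : ℝ) ^ j * (k.choose j : ℝ) =
      ∑ j ∈ range (k + 1), (-1 : ℝ) ^ j * (k.choose j : ℝ) := by
    symm
    apply Finset.sum_subset
    · intro j hj
      rw [mem_range] at hj ⊢
      omega
    · intro j _ hj
      rw [mem_range, not_lt] at hj
      rw [Nat.choose_eq_zero_of_lt (by omega)]
      simp
  rw [h1]
  have h2 := Int.alternating_sum_range_choose (n := k)
  have h3 := congrArg (fun z : ℤ => (z : ℝ)) h2
  push_cast at h3
  exact h3

/-- **The reproducing property** of the explicit polynomial `pleg m`. -/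
theorem pleg_repr (m : ℕ) (hm : 1 ≤ m) (q : ℝ[X]) (hq : q.degree < m) :
    ∫ u in (0 : ℝ)..1, (pleg m).eval u * q.eval u = q.eval 0 := by
  have hmono : ∀ k < m, ∫ u in (0 : ℝ)..1, (pleg m).eval u * (X ^ k : ℝ[X]).eval u =
      if k = 0 then 1 else 0 := by
    intro k hk
    have e1 : (fun u : ℝ => (pleg m).eval u * (X ^ k : ℝ[X]).eval u) = fun u =>
        ∑ j ∈ range m, (C (1 / (j.factorial : ℝ)) * derivative^[j] (X ^ j * fleg m)).eval u *
          (X ^ k : ℝ[X]).eval u := by
      funext u
      unfold pleg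
      rw [eval_finsetSum, Finset.sum_mul]
    rw [e1, intervalIntegral.integral_finsetSum]
    · rw [Finset.sum_congr rfl fun j hj => term_int m j k (mem_range.1 hj), ← Finset.sum_mul,
        alt_sum m k hk]
      by_cases h : k = 0
      · subst h
        simp only [pow_zero, eval_one, mul_one, if_true, one_mul]
        exact fleg_int m hm
      · rw [if_neg h, zero_mul]
    · intro j _
      exact ((Polynomial.continuous _).mul (Polynomial.continuous _)).intervalIntegrable _ _
  have hnat : q.natDegree < m := by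
    rcases eq_or_ne q 0 with h | h
    · rw [h, natDegree_zero]
      omega
    · exact (natDegree_lt_iff_degree_lt h).2 hq
  have e2 : (fun u : ℝ => (pleg m).eval u * q.eval u) = fun u =>
      ∑ k ∈ range m, q.coeff k * ((pleg m).eval u * (X ^ k : ℝ[X]).eval u) := by
    funext u
    rw [Polynomial.eval_eq_sum_range' hnat, Finset.mul_sum]
    refine Finset.sum_congr rfl fun k _ => ?_
    rw [eval_pow, eval_X]
    ring
  rw [e2, intervalIntegral.integral_finsetSum]
  · have e3 : ∀ k ∈ range m, ∫ u in (0 : ℝ)..1,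
        q.coeff k * ((pleg m).eval u * (X ^ k : ℝ[X]).eval u) =
        q.coeff k * (if k = 0 then 1 else 0) := by
      intro k hk
      rw [intervalIntegral.integral_const_mul, hmono k (mem_range.1 hk)]
    rw [Finset.sum_congr rfl e3, Finset.sum_eq_single 0]
    · rw [if_pos rfl, mul_one, Polynomial.coeff_zero_eq_eval_zero]
    · intro k _ hk
      rw [if_neg hk, mul_zero]
    · intro h
      exact absurd (mem_range.2 (by omega)) h
  · intro k _
    exact (continuous_const.mul ((Polynomial.continuous _).mul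
      (Polynomial.continuous _))).intervalIntegrable _ _

theorem pleg_degree (m : ℕ) (hm : 1 ≤ m) : (pleg m).degree < m := by
  have h1 : ∀ j ∈ range m, (C (1 / (j.factorial : ℝ)) * derivative^[j] (X ^ j * fleg m)) ∈
      Polynomial.degreeLT ℝ m := by
    intro j hj
    rw [Polynomial.mem_degreeLT]
    have h2 : (C (1 / (j.factorial : ℝ)) * derivative^[j] (X ^ j * fleg m)).natDegree ≤ m - 1 := by
      refine (natDegree_C_mul_le _ _).trans ?_
      refine (natDegree_iterate_derivative _ _).trans ?_
      have h3 : (X ^ j * fleg m).natDegree ≤ j + (m - 1) := by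
        refine natDegree_mul_le.trans (add_le_add ?_ ?_)
        · exact (natDegree_X_pow_le j)
        · unfold fleg
          refine (natDegree_C_mul_le _ _).trans ?_
          refine natDegree_pow_le.trans ?_
          have h4 : (1 - X : ℝ[X]).natDegree ≤ 1 := by
            refine (natDegree_sub_le _ _).trans ?_
            simp
          calc (m - 1) * (1 - X : ℝ[X]).natDegree ≤ (m - 1) * 1 := Nat.mul_le_mul_left _ h4
            _ = m - 1 := mul_one _
      omega
    calc (C (1 / (j.factorial : ℝ)) * derivative^[j] (X ^ j * fleg m)).degree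
        ≤ ((C (1 / (j.factorial : ℝ)) * derivative^[j] (X ^ j * fleg m)).natDegree : WithBot ℕ) :=
          degree_le_natDegree
      _ ≤ ((m - 1 : ℕ) : WithBot ℕ) := by exact_mod_cast h2
      _ < (m : WithBot ℕ) := by
          exact_mod_cast (show m - 1 < m by omega)
  have h5 : pleg m ∈ Polynomial.degreeLT ℝ m := Submodule.sum_mem _ h1
  exact Polynomial.mem_degreeLT.1 h5

theorem pleg_zero (m : ℕ) : (pleg m).eval 0 = (m : ℝ) ^ 2 := by
  unfold pleg
  rw [eval_finsetSum]
  have h1 : ∀ j ∈ range m,
      (C (1 / (j.factorial : ℝ)) * derivative^[j] (X ^ j * fleg m)).eval 0 = (m : ℝ) := by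
    intro j _
    rw [eval_mul, eval_C, ← Polynomial.coeff_zero_eq_eval_zero,
      Polynomial.coeff_iterate_derivative, zero_add, Nat.descFactorial_self,
      Polynomial.coeff_X_pow_mul' , if_pos le_rfl, Nat.sub_self,
      Polynomial.coeff_zero_eq_eval_zero]
    unfold fleg
    have h2 : (j.factorial : ℝ) ≠ 0 := by positivity
    simp
    field_simp
  rw [Finset.sum_congr rfl h1]
  simp
  ring

/-- JOB P7b. -/
theorem leg : Pool.Agent.Q286.BD.S_leg := fun m hm =>
  ⟨pleg m, pleg_degree m hm, pleg_zero m, pleg_repr m hm⟩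

end Pool.Agent.Q202.BD
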