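import Mathlib
import Pool.Agent.Q286.BD.Spec

set_option autoImplicit false

/-!
# Project BD, job B3 (helper202): the coefficients are bounded by the distance
-/

namespace Pool.Agent.Q202.BD

open MeasureTheory Set
open Pool.Agent.Q286.BD

/-- the sum of `a n / n` -/
noncomputable def cc (N : ℕ) (a : ℕ → ℝ) : ℝ := ∑ n ∈ Finset.Icc 1 N, a n / n

/-- the value of the constant on `(1/(m+1), 1/m]` -/
noncomputable def Am (N : ℕ) (a : ℕ → ℝ) (m : ℕ) : ℝ :=
  1 + ∑ n ∈ Finset.Icc 1 N, a n * ((m / n : ℕ) : ℝ)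

theorem dif_far (N : ℕ) (a : ℕ → ℝ) {x : ℝ} (hx : 1 < x) : dif N a x = -(cc N a / x) := by
  unfold dif cc
  rw [if_neg (not_le.2 hx), zero_sub, Finset.sum_div]
  congr 1
  refine Finset.sum_congr rfl fun n hn => ?_
  have hn1 : (1 : ℝ) ≤ n := by exact_mod_cast (Finset.mem_Icc.1 hn).1
  have h1 : 1 < (n : ℝ) * x := by nlinarith
  rw [Int.fract_eq_self.2 ⟨by positivity, by rw [div_lt_one (by linarith)]; exact h1⟩]
  field_simp

theorem floor_eq (m n : ℕ) (hn : 1 ≤ n) {y : ℝ} (h1 : (m : ℝ) ≤ y) (h2 : y < m + 1) :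
    ⌊y / n⌋ = ((m / n : ℕ) : ℤ) := by
  have hn0 : (0 : ℝ) < n := by exact_mod_cast hn
  rw [Int.floor_eq_iff, Int.cast_natCast]
  constructor
  · rw [le_div_iff₀ hn0]
    have h3 : ((m / n * n : ℕ) : ℝ) ≤ m := by exact_mod_cast Nat.div_mul_le_self m n
    rw [Nat.cast_mul] at h3
    linarith
  · rw [div_lt_iff₀ hn0]
    have h3 : m + 1 ≤ (m / n + 1) * n := by
      have := Nat.lt_mul_div_succ m (show 0 < n by omega)
      rw [mul_comm] at this
      omega
    have h4 : ((m + 1 : ℕ) : ℝ) ≤ (((m / n + 1) * n : ℕ) : ℝ) := by exact_mod_cast h3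
    rw [Nat.cast_mul, Nat.cast_add, Nat.cast_add, Nat.cast_one] at h4
    linarith

theorem dif_near (N : ℕ) (a : ℕ → ℝ) (m : ℕ) (hm : 1 ≤ m) {x : ℝ} (h1 : 1 / ((m : ℝ) + 1) < x)
    (h2 : x ≤ 1 / (m : ℝ)) : dif N a x = Am N a m - cc N a / x := by
  have hm0 : (1 : ℝ) ≤ m := by exact_mod_cast hm
  have hx : 0 < x := lt_trans (by positivity) h1
  have hx1 : x ≤ 1 := h2.trans (by rw [div_le_one (by linarith)]; exact hm0)
  have hy1 : (m : ℝ) ≤ 1 / x := by
    rw [le_div_iff₀ hx]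
    rw [le_div_iff₀ (by linarith)] at h2
    linarith
  have hy2 : 1 / x < m + 1 := by
    rw [div_lt_iff₀ hx]
    rw [div_lt_iff₀ (by linarith)] at h1
    linarith
  unfold dif Am cc
  rw [if_pos hx1, Finset.sum_div, add_sub_assoc, ← Finset.sum_sub_distrib, sub_eq_add_neg,
    ← Finset.sum_neg_distrib]
  congr 1
  refine Finset.sum_congr rfl fun n hn => ?_
  have hn1 := (Finset.mem_Icc.1 hn).1
  have hn0 : (0 : ℝ) < n := by exact_mod_cast hn1
  have e : 1 / ((n : ℝ) * x) = 1 / x / n := by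
    field_simp
  rw [e]
  have h3 := floor_eq m n hn1 hy1 hy2
  have h4 : Int.fract (1 / x / (n : ℝ)) = 1 / x / n - ((m / n : ℕ) : ℝ) := by
    rw [← Int.self_sub_floor, h3]
    norm_cast
  rw [h4]
  field_simp
  ring

theorem dif_meas (N : ℕ) (a : ℕ → ℝ) : Measurable (dif N a) := by
  unfold dif
  refine Measurable.sub ?_ ?_
  · exact Measurable.ite measurableSet_Iic measurable_const measurable_const
  · refine Finset.measurable_sum _ fun n _ => ?_
    exact ((measurable_const.div (measurable_const.mul measurable_id)).fract).const_mul _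

theorem dif_bdd (N : ℕ) (a : ℕ → ℝ) (x : ℝ) :
    |dif N a x| ≤ 1 + ∑ n ∈ Finset.Icc 1 N, |a n| := by
  unfold dif
  refine (abs_sub _ _).trans (add_le_add ?_ ?_)
  · split_ifs <;> norm_num
  · refine (Finset.abs_sum_le_sum_abs _ _).trans (Finset.sum_le_sum fun n _ => ?_)
    rw [abs_mul, abs_of_nonneg (Int.fract_nonneg (1 / ((n : ℝ) * x)))]
    calc |a n| * Int.fract (1 / ((n : ℝ) * x)) ≤ |a n| * 1 :=
          mul_le_mul_of_nonneg_left (Int.fract_lt_one _).le (abs_nonneg _)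
      _ = |a n| := mul_one _

theorem dif_int (N : ℕ) (a : ℕ → ℝ) : IntegrableOn (fun x : ℝ => dif N a x ^ 2) (Ioi 0) := by
  have e : Ioi (0 : ℝ) = Ioc 0 1 ∪ Ioi 1 := (Ioc_union_Ioi_eq_Ioi zero_le_one).symm
  rw [e]
  refine IntegrableOn.union ?_ ?_
  · refine Measure.integrableOn_of_bounded (M := (1 + ∑ n ∈ Finset.Icc 1 N, |a n|) ^ 2) ?_ ?_ ?_
    · simp
    · exact ((dif_meas N a).pow_const 2).aestronglyMeasurable
    · refine Filter.Eventually.of_forall fun x => ?_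
      rw [Real.norm_eq_abs, abs_pow]
      exact pow_le_pow_left₀ (abs_nonneg _) (dif_bdd N a x) 2
  · have h1 : IntegrableOn (fun x : ℝ => cc N a ^ 2 * x ^ (-2 : ℝ)) (Ioi 1) :=
      (integrableOn_Ioi_rpow_of_lt (by norm_num) one_pos).const_mul _
    refine h1.congr_fun ?_ measurableSet_Ioi
    intro x hx
    have hx' : (1 : ℝ) < x := hx
    change cc N a ^ 2 * x ^ (-2 : ℝ) = dif N a x ^ 2
    rw [dif_far N a hx', Real.rpow_neg (by linarith)]
    have e2 : x ^ (2 : ℝ) = x ^ (2 : ℕ) := by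
      rw [← Real.rpow_natCast]
      norm_num
    rw [e2]
    field_simp

theorem cc_le (N : ℕ) (a : ℕ → ℝ) : cc N a ^ 2 ≤ JJ N a := by
  have h1 : ∫ x in Ioi (1 : ℝ), dif N a x ^ 2 = cc N a ^ 2 := by
    have h2 : ∫ x in Ioi (1 : ℝ), dif N a x ^ 2 =
        ∫ x in Ioi (1 : ℝ), cc N a ^ 2 * x ^ (-2 : ℝ) := by
      refine setIntegral_congr_fun measurableSet_Ioi ?_
      intro x hx
      have hx' : (1 : ℝ) < x := hx
      change dif N a x ^ 2 = cc N a ^ 2 * x ^ (-2 : ℝ)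
      rw [dif_far N a hx', Real.rpow_neg (by linarith)]
      have e2 : x ^ (2 : ℝ) = x ^ (2 : ℕ) := by
        rw [← Real.rpow_natCast]
        norm_num
      rw [e2]
      field_simp
    rw [h2, integral_const_mul, integral_Ioi_rpow_of_lt (by norm_num) one_pos]
    norm_num
  rw [← h1]
  unfold JJ
  exact setIntegral_mono_set (dif_int N a) (Filter.Eventually.of_forall fun x => sq_nonneg _)
    (Filter.Eventually.of_forall (Ioi_subset_Ioi zero_le_one))

theorem JJ_nonneg (N : ℕ) (a : ℕ → ℝ) : 0 ≤ JJ N a :=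
  setIntegral_nonneg measurableSet_Ioi fun _ _ => sq_nonneg _

theorem Am_sq (N : ℕ) (a : ℕ → ℝ) (m : ℕ) (hm : 1 ≤ m) :
    Am N a m ^ 2 ≤ (2 * ((m : ℝ) + 1)) ^ 2 * JJ N a := by
  have hm0 : (1 : ℝ) ≤ m := by exact_mod_cast hm
  set I : Set ℝ := Ioc (1 / ((m : ℝ) + 1)) (1 / (m : ℝ)) with hI
  have hsub : I ⊆ Ioi (0 : ℝ) := by
    intro x hx
    exact lt_trans (by positivity) hx.1
  have hlen : (volume I).toReal = 1 / ((m : ℝ) * (m + 1)) := by
    rw [hI, Real.volume_Ioc, ENNReal.toReal_ofReal]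
    · field_simp
      ring
    · rw [sub_nonneg]
      apply one_div_le_one_div_of_le <;> linarith
  have hfin : volume I ≠ ⊤ := by
    rw [hI, Real.volume_Ioc]
    exact ENNReal.ofReal_ne_top
  have hint : IntegrableOn (fun x : ℝ => dif N a x ^ 2) I := (dif_int N a).mono_set hsub
  have h1 : ∫ x in I, dif N a x ^ 2 ≤ JJ N a :=
    setIntegral_mono_set (dif_int N a) (Filter.Eventually.of_forall fun x => sq_nonneg _)
      (Filter.Eventually.of_forall hsub)
  have h2 : ∫ _ in I, Am N a m ^ 2 ≤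
      ∫ x in I, (2 * dif N a x ^ 2 + 2 * (JJ N a * ((m : ℝ) + 1) ^ 2)) := by
    refine setIntegral_mono_on (integrableOn_const hfin)
      ((hint.const_mul 2).add (integrableOn_const hfin)) measurableSet_Ioc ?_
    intro x hx
    have hx0 : 0 < x := hsub hx
    have h3 : Am N a m = dif N a x + cc N a / x := by
      rw [dif_near N a m hm hx.1 hx.2]
      ring
    have h4 : (cc N a / x) ^ 2 ≤ JJ N a * ((m : ℝ) + 1) ^ 2 := by
      rw [div_pow, div_eq_mul_inv]
      refine mul_le_mul (cc_le N a) ?_ (by positivity) (JJ_nonneg N a)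
      rw [← inv_pow]
      refine pow_le_pow_left₀ (by positivity) ?_ 2
      rw [inv_le_comm₀ hx0 (by linarith)]
      have := hx.1
      rw [one_div] at this
      exact this.le
    rw [h3]
    nlinarith [sq_nonneg (dif N a x - cc N a / x)]
  rw [integral_add (hint.const_mul 2) (integrableOn_const hfin), integral_const_mul,
    setIntegral_const, setIntegral_const, smul_eq_mul, smul_eq_mul] at h2
  rw [Measure.real, hlen] at h2
  have h5 : 1 / ((m : ℝ) * (m + 1)) * Am N a m ^ 2 ≤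
      2 * JJ N a + 1 / ((m : ℝ) * (m + 1)) * (2 * (JJ N a * ((m : ℝ) + 1) ^ 2)) :=
    h2.trans (by linarith)
  have hp : 0 < (m : ℝ) * (m + 1) := by positivity
  have h6 := mul_le_mul_of_nonneg_left h5 hp.le
  have e1 : (m : ℝ) * (m + 1) * (1 / ((m : ℝ) * (m + 1)) * Am N a m ^ 2) = Am N a m ^ 2 := by
    field_simp
  have e2 : (m : ℝ) * (m + 1) * (2 * JJ N a + 1 / ((m : ℝ) * (m + 1)) *
      (2 * (JJ N a * ((m : ℝ) + 1) ^ 2))) =
      2 * JJ N a * ((m : ℝ) * (m + 1)) + 2 * (JJ N a * ((m : ℝ) + 1) ^ 2) := by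
    field_simp
  rw [e1, e2] at h6
  have hJ := JJ_nonneg N a
  nlinarith [mul_nonneg hJ (show (0 : ℝ) ≤ m by linarith)]

theorem Am_le (N : ℕ) (a : ℕ → ℝ) (m : ℕ) :
    |Am N a m| ≤ 1 + 2 * ((m : ℝ) + 1) * Real.sqrt (JJ N a) := by
  have hs := Real.sqrt_nonneg (JJ N a)
  rcases Nat.eq_zero_or_pos m with h | h
  · subst h
    have e : Am N a 0 = 1 := by
      unfold Am
      simp
    rw [e, abs_one]
    push_cast
    nlinarith
  · have h1 := Am_sq N a m h
    have h2 : (2 * ((m : ℝ) + 1)) ^ 2 * JJ N a = (2 * ((m : ℝ) + 1) * Real.sqrt (JJ N a)) ^ 2 := by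
      rw [mul_pow _ (Real.sqrt _), Real.sq_sqrt (JJ_nonneg N a)]
    rw [h2] at h1
    have h3 := abs_le_of_sq_le_sq h1 (by positivity)
    linarith

/-- the coefficients, extended by zero -/
noncomputable def az (N : ℕ) (a : ℕ → ℝ) (n : ℕ) : ℝ := if 1 ≤ n ∧ n ≤ N then a n else 0

theorem Am_succ (N : ℕ) (a : ℕ → ℝ) (m : ℕ) :
    Am N a (m + 1) - Am N a m = ∑ d ∈ (m + 1).divisors, az N a d := by
  unfold Am
  rw [add_sub_add_left_eq_sub, ← Finset.sum_sub_distrib]
  have h1 : ∀ n ∈ Finset.Icc 1 N, a n * (((m + 1) / n : ℕ) : ℝ) - a n * ((m / n : ℕ) : ℝ) =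
      if n ∣ m + 1 then a n else 0 := by
    intro n _
    rw [Nat.succ_div]
    split_ifs
    · push_cast
      ring
    · push_cast
      ring
  rw [Finset.sum_congr rfl h1, ← Finset.sum_filter]
  have h2 : ∀ d ∈ (m + 1).divisors, az N a d = if (1 ≤ d ∧ d ≤ N) then a d else 0 :=
    fun d _ => rfl
  rw [Finset.sum_congr rfl h2, ← Finset.sum_filter]
  refine Finset.sum_congr ?_ fun _ _ => rfl
  ext d
  simp only [Finset.mem_filter, Finset.mem_Icc, Nat.mem_divisors]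
  constructor
  · rintro ⟨h3, h4⟩
    exact ⟨⟨h4, by omega⟩, h3⟩
  · rintro ⟨⟨h3, _⟩, h4⟩
    exact ⟨h4, h3⟩

theorem coef_le (N : ℕ) (a : ℕ → ℝ) (n : ℕ) (h1 : 1 ≤ n) (h2 : n ≤ N) :
    |a n| ≤ 2 * (N : ℝ) * (1 + 4 * N * Real.sqrt (JJ N a)) := by
  set s := Real.sqrt (JJ N a) with hs
  have hs0 : 0 ≤ s := Real.sqrt_nonneg _
  have hN : (1 : ℝ) ≤ N := by exact_mod_cast h1.trans h2
  have key := (ArithmeticFunction.sum_eq_iff_sum_mul_moebius_eq
    (f := az N a) (g := fun k => ∑ d ∈ k.divisors, az N a d)).1 (fun k _ => rfl) n h1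
  have e : az N a n = a n := by
    unfold az
    rw [if_pos ⟨h1, h2⟩]
  rw [e] at key
  rw [← key]
  refine (Finset.abs_sum_le_sum_abs _ _).trans ?_
  have h3 : ∀ x ∈ n.divisorsAntidiagonal,
      |((ArithmeticFunction.moebius x.1 : ℤ) : ℝ) * ∑ d ∈ x.2.divisors, az N a d| ≤
      2 * (1 + 4 * N * s) := by
    intro x hx
    have hx1 := Nat.mem_divisorsAntidiagonal.1 hx
    have hx2 : 1 ≤ x.2 := Nat.pos_of_ne_zero fun h => hx1.2 (by rw [← hx1.1, h, mul_zero])
    have hx3 : x.2 ≤ N := (Nat.le_of_dvd h1 ⟨x.1, by rw [← hx1.1, mul_comm]⟩).trans h2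
    obtain ⟨k, hk⟩ : ∃ k, x.2 = k + 1 := ⟨x.2 - 1, by omega⟩
    have hkN : ((k : ℝ) + 1) ≤ N := by
      have : ((k + 1 : ℕ) : ℝ) ≤ N := by exact_mod_cast (hk ▸ hx3)
      push_cast at this
      exact this
    rw [abs_mul, hk, ← Am_succ]
    have h4 : |((ArithmeticFunction.moebius x.1 : ℤ) : ℝ)| ≤ 1 := by
      have := ArithmeticFunction.abs_moebius_le_one (n := x.1)
      exact_mod_cast this
    have h5 : |Am N a (k + 1) - Am N a k| ≤ 2 * (1 + 4 * N * s) := by
      refine (abs_sub _ _).trans ?_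
      have h6 := Am_le N a (k + 1)
      have h7 := Am_le N a k
      rw [← hs] at h6 h7
      push_cast at h6
      have h8 : 2 * ((k : ℝ) + 1) * s ≤ 2 * N * s := by gcongr
      have h9 : 2 * ((k : ℝ) + 1 + 1) * s ≤ 2 * (2 * N) * s := by
        have : (k : ℝ) + 1 + 1 ≤ 2 * N := by linarith
        gcongr
      nlinarith
    calc |((ArithmeticFunction.moebius x.1 : ℤ) : ℝ)| * |Am N a (k + 1) - Am N a k|
        ≤ 1 * (2 * (1 + 4 * N * s)) := mul_le_mul h4 h5 (abs_nonneg _) zero_le_one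
      _ = _ := one_mul _
  refine (Finset.sum_le_sum h3).trans ?_
  rw [Finset.sum_const, nsmul_eq_mul]
  have h10 : (n.divisorsAntidiagonal.card : ℝ) ≤ N := by
    have h11 : n.divisorsAntidiagonal.card = n.divisors.card := by
      rw [← Nat.map_div_right_divisors, Finset.card_map]
    have h12 : n.divisors.card ≤ n := Nat.card_divisors_le_self n
    rw [h11]
    exact_mod_cast h12.trans h2
  have h13 : 0 ≤ 2 * (1 + 4 * N * s) := by positivity
  calc (n.divisorsAntidiagonal.card : ℝ) * (2 * (1 + 4 * N * s)) ≤ N * (2 * (1 + 4 * N * s)) :=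
        mul_le_mul_of_nonneg_right h10 h13
    _ = _ := by ring

/-- JOB B3. -/
theorem coef : S_coef := by
  refine ⟨8, by norm_num, fun N a hN => ⟨dif_int N a, ?_⟩⟩
  set s := Real.sqrt (JJ N a) with hs
  have hs0 : 0 ≤ s := Real.sqrt_nonneg _
  have hN' : (1 : ℝ) ≤ N := by exact_mod_cast hN
  have h1 : ∑ n ∈ Finset.Icc 1 N, |a n| ≤
      ∑ _n ∈ Finset.Icc 1 N, 2 * (N : ℝ) * (1 + 4 * N * s) := by
    refine Finset.sum_le_sum fun n hn => ?_
    have := Finset.mem_Icc.1 hn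
    exact coef_le N a n this.1 this.2
  refine h1.trans ?_
  rw [Finset.sum_const, Nat.card_Icc, nsmul_eq_mul, Nat.add_sub_cancel]
  have h2 : 1 + 4 * (N : ℝ) * s ≤ 4 * N * (1 + s) := by nlinarith
  calc (N : ℝ) * (2 * N * (1 + 4 * N * s)) ≤ N * (2 * N * (4 * N * (1 + s))) := by gcongr
    _ = 8 * (N : ℝ) ^ 3 * (1 + s) := by ring

end Pool.Agent.Q202.BD
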