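import Mathlib
import Pool.Agent.Q286.BD.Spec
import Pool.Agent.Q202.BD.Coef

set_option autoImplicit false

/-!
# Project BD, job B5 (helper202): Burnol's lower bound for finitely many zeros on the line
-/

namespace Pool.Agent.Q202.BD

open MeasureTheory Set Filter
open Pool.Agent.Q286.BD

theorem exists_bump : ∃ b : ℝ → ℝ, Bump b := by
  let f : ContDiffBump (3 / 2 : ℝ) := ⟨1 / 4, 1 / 2, by norm_num, by norm_num⟩
  refine ⟨f.normed volume, fun n => f.contDiff_normed, ?_, fun y => f.nonneg_normed y,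
    f.integral_normed⟩
  intro y hy
  have h1 : y ∈ Function.support (f.normed volume) := hy
  rw [f.support_normed_eq] at h1
  have h2 : |y - 3 / 2| < 1 / 2 := by
    have h3 := Metric.mem_ball.1 h1
    rwa [Real.dist_eq] at h3
  rw [abs_lt] at h2
  constructor <;> linarith [h2.1, h2.2]

theorem measurable_KK {b : ℝ → ℝ} (hb : Bump b) (g : ℝ) (p : Polynomial ℝ) (δ L : ℝ) (κ c : ℂ) :
    Measurable (KK b g p δ L κ c) := by
  unfold KK
  refine Measurable.ite measurableSet_Iic measurable_const ?_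
  refine Measurable.ite measurableSet_Iio ?_ ?_
  · exact measurable_const.div Complex.measurable_ofReal
  · refine Measurable.add ?_ ?_
    · refine Measurable.mul (Measurable.mul ?_ ?_) ?_
      · exact Complex.measurable_ofReal.pow_const _
      · exact Complex.measurable_ofReal.comp
          (p.continuous.measurable.comp (Real.measurable_log.div_const _))
      · refine Complex.measurable_ofReal.comp ?_
        have h1 : Measurable (hcut δ) := by
          unfold hcut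
          have h2 : Continuous Real.smoothTransition := Real.smoothTransition.continuous
          exact (continuous_const.sub (h2.comp (by fun_prop))).measurable
        exact h1.comp (Real.measurable_log.div_const _)
    · refine Measurable.mul measurable_const ?_
      exact Complex.measurable_ofReal.comp
        ((hb.smooth 0).continuous.measurable.comp (measurable_id.mul_const _))

/-- products of square integrable functions -/
theorem prodInt {s : Set ℝ} (hs : MeasurableSet s) (hs0 : s ⊆ Ioi 0) {A : ℝ → ℝ} (hA : Measurable A)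
    (hA2 : IntegrableOn (fun y => A y ^ 2) s) {K : ℝ → ℂ} (hK : Measurable K)
    (hK2 : IntegrableOn (fun y : ℝ => ‖K y‖ ^ 2 * y ^ 2) s) :
    IntegrableOn (fun y : ℝ => ((A y * y : ℝ) : ℂ) * K y) s := by
  refine Integrable.mono' (hA2.add hK2) ?_ ?_
  · exact ((Complex.measurable_ofReal.comp (hA.mul measurable_id)).mul hK).aestronglyMeasurable
  · refine (ae_restrict_iff' hs).2 (Eventually.of_forall fun y hy => ?_)
    have hy0 : 0 < y := hs0 hy
    rw [norm_mul, Complex.norm_real, Real.norm_eq_abs, abs_mul, abs_of_pos hy0, Pi.add_apply]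
    have e1 : A y ^ 2 = |A y| ^ 2 := (sq_abs _).symm
    rw [e1]
    nlinarith [sq_nonneg (|A y| - ‖K y‖ * y), abs_nonneg (A y), norm_nonneg (K y),
      mul_nonneg (abs_nonneg (A y)) (mul_nonneg (norm_nonneg (K y)) hy0.le)]

/-- Cauchy-Schwarz -/
theorem cauchy {s : Set ℝ} (F G : ℝ → ℝ) (hF : IntegrableOn (fun y => F y ^ 2) s)
    (hG : IntegrableOn (fun y => G y ^ 2) s) (hFG : IntegrableOn (fun y => F y * G y) s) :
    (∫ y in s, F y * G y) ^ 2 ≤ (∫ y in s, F y ^ 2) * ∫ y in s, G y ^ 2 := by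
  have key : ∀ t : ℝ, 0 ≤ (∫ y in s, F y ^ 2) * (t * t) + (2 * ∫ y in s, F y * G y) * t +
      ∫ y in s, G y ^ 2 := by
    intro t
    have h1 : 0 ≤ ∫ y in s, (t * F y + G y) ^ 2 := integral_nonneg fun y => sq_nonneg _
    have h2 : (fun y => (t * F y + G y) ^ 2) = fun y =>
        ((t * t) * F y ^ 2 + (2 * t) * (F y * G y)) + G y ^ 2 := by
      funext y
      ring
    have h4 : ∫ y in s, ((t * t) * F y ^ 2 + (2 * t) * (F y * G y)) + G y ^ 2 =
        (∫ y in s, ((t * t) * F y ^ 2 + (2 * t) * (F y * G y))) + ∫ y in s, G y ^ 2 :=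
      integral_add ((hF.const_mul _).add (hFG.const_mul _)) hG
    have h5 : ∫ y in s, ((t * t) * F y ^ 2 + (2 * t) * (F y * G y)) =
        (∫ y in s, (t * t) * F y ^ 2) + ∫ y in s, (2 * t) * (F y * G y) :=
      integral_add (hF.const_mul _) (hFG.const_mul _)
    rw [h2, h4, h5, integral_const_mul, integral_const_mul] at h1
    linarith
  have h3 := discrim_le_zero key
  unfold discrim at h3
  nlinarith

theorem sq_inv_int : IntegrableOn (fun y : ℝ => (1 / y) ^ 2) (Ioi 1) := by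
  refine (integrableOn_Ioi_rpow_of_lt (show (-2 : ℝ) < -1 by norm_num) one_pos).congr_fun ?_
    measurableSet_Ioi
  intro x hx
  have hx' : (1 : ℝ) < x := hx
  change x ^ (-2 : ℝ) = (1 / x) ^ 2
  rw [Real.rpow_neg (by linarith), show x ^ (2 : ℝ) = x ^ (2 : ℕ) by
    rw [← Real.rpow_natCast]; norm_num, one_div, inv_pow]

theorem fr_int (n : ℕ) (hn : 1 ≤ n) :
    IntegrableOn (fun y : ℝ => (Int.fract (y / n) / y) ^ 2) (Ioi 0) := by
  have hm : Measurable fun y : ℝ => (Int.fract (y / (n : ℝ)) / y) ^ 2 :=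
    (((measurable_id.div_const _).fract).div measurable_id).pow_const 2
  have hn0 : (1 : ℝ) ≤ n := by exact_mod_cast hn
  rw [← Ioc_union_Ioi_eq_Ioi (zero_le_one' ℝ)]
  refine IntegrableOn.union ?_ ?_
  · refine Measure.integrableOn_of_bounded (M := 1) (by simp) hm.aestronglyMeasurable ?_
    refine (ae_restrict_iff' measurableSet_Ioc).2 (Eventually.of_forall fun y hy => ?_)
    have h0 : 0 < y := hy.1
    have h1 : Int.fract (y / (n : ℝ)) ≤ y := by
      have h2 : Int.fract (y / (n : ℝ)) ≤ y / n := by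
        have h3 : (0 : ℤ) ≤ ⌊y / (n : ℝ)⌋ := Int.floor_nonneg.2 (by positivity)
        have h4 : (0 : ℝ) ≤ (⌊y / (n : ℝ)⌋ : ℝ) := by exact_mod_cast h3
        have := Int.self_sub_floor (y / (n : ℝ))
        linarith
      exact h2.trans (div_le_self h0.le hn0)
    have h5 : 0 ≤ Int.fract (y / (n : ℝ)) := Int.fract_nonneg _
    rw [Real.norm_eq_abs, abs_of_nonneg (sq_nonneg _)]
    have h6 : Int.fract (y / (n : ℝ)) / y ≤ 1 := by
      rw [div_le_one h0]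
      exact h1
    exact pow_le_one₀ (by positivity) h6
  · refine sq_inv_int.mono' hm.aestronglyMeasurable ?_
    refine (ae_restrict_iff' measurableSet_Ioi).2 (Eventually.of_forall fun y hy => ?_)
    have hy' : (1 : ℝ) < y := hy
    have h5 : 0 ≤ Int.fract (y / (n : ℝ)) := Int.fract_nonneg _
    rw [Real.norm_eq_abs, abs_of_nonneg (sq_nonneg _)]
    refine pow_le_pow_left₀ (by positivity) ?_ 2
    exact div_le_div_of_nonneg_right (Int.fract_lt_one _).le (by linarith)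

/-- the distance in the variable `y = 1 / x` -/
theorem JJ_inv (N : ℕ) (a : ℕ → ℝ) :
    IntegrableOn (fun y : ℝ => (dif N a (1 / y) / y) ^ 2) (Ioi 0) ∧
      ∫ y in Ioi (0 : ℝ), (dif N a (1 / y) / y) ^ 2 = JJ N a := by
  have e : ∀ y ∈ Ioi (0 : ℝ), (|(-1 : ℝ)| * y ^ ((-1 : ℝ) - 1)) • dif N a (y ^ (-1 : ℝ)) ^ 2 =
      (dif N a (1 / y) / y) ^ 2 := by
    intro y hy
    have hy0 : (0 : ℝ) < y := hy
    rw [Real.rpow_neg_one, show ((-1 : ℝ) - 1) = -(2 : ℕ) by norm_num, Real.rpow_neg hy0.le,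
      Real.rpow_natCast, smul_eq_mul, abs_neg, abs_one, one_mul, div_pow, one_div]
    rw [mul_comm, div_eq_mul_inv]
  constructor
  · have h1 := (integrableOn_Ioi_comp_rpow_iff (fun x : ℝ => dif N a x ^ 2)
      (show (-1 : ℝ) ≠ 0 by norm_num)).2 (dif_int N a)
    exact h1.congr_fun e measurableSet_Ioi
  · have h1 := integral_comp_rpow_Ioi (fun x : ℝ => dif N a x ^ 2)
      (show (-1 : ℝ) ≠ 0 by norm_num)
    rw [setIntegral_congr_fun measurableSet_Ioi e] at h1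
    exact h1

theorem dif_inv (N : ℕ) (a : ℕ → ℝ) {y : ℝ} (hy : 0 < y) :
    dif N a (1 / y) = (if 1 ≤ y then 1 else 0) -
      ∑ n ∈ Finset.Icc 1 N, a n * Int.fract (y / n) := by
  unfold dif
  congr 1
  · by_cases h : 1 ≤ y
    · rw [if_pos h, if_pos (by rw [div_le_one hy]; exact h)]
    · rw [if_neg h, if_neg (by rw [div_le_one hy]; exact h)]
  · refine Finset.sum_congr rfl fun n _ => ?_
    congr 2
    field_simp

theorem int1 {K : ℝ → ℂ} (hK : Measurable K)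
    (hK2 : IntegrableOn (fun y : ℝ => ‖K y‖ ^ 2 * y ^ 2) (Ioi 0)) : IntegrableOn K (Ioi 1) := by
  have hsub : Ioi (1 : ℝ) ⊆ Ioi 0 := Ioi_subset_Ioi zero_le_one
  have h2 := prodInt measurableSet_Ioi hsub (A := fun y => 1 / y)
    (measurable_const.div measurable_id) sq_inv_int hK (hK2.mono_set hsub)
  refine h2.congr_fun ?_ measurableSet_Ioi
  intro y hy
  have hy0 : (0 : ℝ) < y := hsub hy
  change ((1 / y * y : ℝ) : ℂ) * K y = K y
  rw [one_div_mul_cancel hy0.ne', Complex.ofReal_one, one_mul]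

theorem intfr {K : ℝ → ℂ} (hK : Measurable K)
    (hK2 : IntegrableOn (fun y : ℝ => ‖K y‖ ^ 2 * y ^ 2) (Ioi 0)) (n : ℕ) (hn : 1 ≤ n) :
    IntegrableOn (fun y : ℝ => ((Int.fract (y / (n : ℝ)) : ℝ) : ℂ) * K y) (Ioi 0) := by
  have h2 := prodInt measurableSet_Ioi (subset_refl _) (A := fun y => Int.fract (y / (n : ℝ)) / y)
    ((measurable_id.div_const _).fract.div measurable_id) (fr_int n hn) hK hK2
  refine h2.congr_fun ?_ measurableSet_Ioi
  intro y hy
  have hy0 : (0 : ℝ) < y := hy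
  change ((Int.fract (y / (n : ℝ)) / y * y : ℝ) : ℂ) * K y = _
  rw [div_mul_cancel₀ _ hy0.ne']

/-- the pairing of the distance function with a test function -/
theorem pair (N : ℕ) (a : ℕ → ℝ) {K : ℝ → ℂ} (hK : Measurable K)
    (hK2 : IntegrableOn (fun y : ℝ => ‖K y‖ ^ 2 * y ^ 2) (Ioi 0)) :
    IntegrableOn (fun y : ℝ => ((dif N a (1 / y) : ℝ) : ℂ) * K y) (Ioi 0) ∧
    ∫ y in Ioi (0 : ℝ), ((dif N a (1 / y) : ℝ) : ℂ) * K y = (∫ y in Ioi (1 : ℝ), K y) -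
      ∑ n ∈ Finset.Icc 1 N, (a n : ℂ) *
        ∫ y in Ioi (0 : ℝ), ((Int.fract (y / (n : ℝ)) : ℝ) : ℂ) * K y := by
  have h1 : IntegrableOn K (Ioi 1) := int1 hK hK2
  have h3 : ∀ n ∈ Finset.Icc 1 N,
      IntegrableOn (fun y : ℝ => ((Int.fract (y / (n : ℝ)) : ℝ) : ℂ) * K y) (Ioi 0) :=
    fun n hn => intfr hK hK2 n (Finset.mem_Icc.1 hn).1
  have h4 : IntegrableOn (fun y : ℝ => (Ici (1 : ℝ)).indicator K y) (Ioi 0) := by
    have h5 : IntegrableOn K (Ici 1) := integrableOn_Ici_iff_integrableOn_Ioi (by simp) |>.2 h1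
    exact ((integrable_indicator_iff measurableSet_Ici).2 h5).integrableOn
  have h6 : IntegrableOn (fun y : ℝ => ∑ n ∈ Finset.Icc 1 N, (a n : ℂ) *
      (((Int.fract (y / (n : ℝ)) : ℝ) : ℂ) * K y)) (Ioi 0) :=
    integrable_finsetSum _ fun n hn => (h3 n hn).const_mul _
  have e : ∀ y ∈ Ioi (0 : ℝ), ((dif N a (1 / y) : ℝ) : ℂ) * K y =
      (Ici (1 : ℝ)).indicator K y - ∑ n ∈ Finset.Icc 1 N, (a n : ℂ) *
      (((Int.fract (y / (n : ℝ)) : ℝ) : ℂ) * K y) := by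
    intro y hy
    rw [dif_inv N a hy]
    push_cast
    rw [sub_mul, Finset.sum_mul]
    congr 1
    · by_cases h : 1 ≤ y
      · rw [if_pos h, indicator_of_mem (show y ∈ Ici 1 from h)]
        simp
      · rw [if_neg h, indicator_of_notMem (show y ∉ Ici 1 from h)]
        simp
    · exact Finset.sum_congr rfl fun n _ => mul_assoc _ _ _
  constructor
  · exact (h4.sub h6).congr_fun (fun y hy => (e y hy).symm) measurableSet_Ioi
  · rw [setIntegral_congr_fun measurableSet_Ioi e, integral_sub h4 h6,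
      integral_finsetSum _ fun n hn => (h3 n hn).const_mul _]
    congr 1
    · rw [setIntegral_indicator measurableSet_Ici]
      have h7 : Ioi (0 : ℝ) ∩ Ici 1 = Ici 1 :=
        inter_eq_right.2 fun y (hy : 1 ≤ y) => show 0 < y from lt_of_lt_of_le one_pos hy
      rw [h7, integral_Ici_eq_integral_Ioi]
    · exact Finset.sum_congr rfl fun n _ => integral_const_mul _ _

/-- Cauchy-Schwarz for the pairing -/
theorem pair_le (N : ℕ) (a : ℕ → ℝ) {K : ℝ → ℂ} (hK : Measurable K)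
    (hK2 : IntegrableOn (fun y : ℝ => ‖K y‖ ^ 2 * y ^ 2) (Ioi 0)) :
    ‖∫ y in Ioi (0 : ℝ), ((dif N a (1 / y) : ℝ) : ℂ) * K y‖ ^ 2 ≤
      JJ N a * ∫ y in Ioi (0 : ℝ), ‖K y‖ ^ 2 * y ^ 2 := by
  have h1 := (pair N a hK hK2).1
  have e : ∀ y ∈ Ioi (0 : ℝ), ‖((dif N a (1 / y) : ℝ) : ℂ) * K y‖ =
      |dif N a (1 / y) / y| * (‖K y‖ * y) := by
    intro y hy
    have hy0 : (0 : ℝ) < y := hy
    rw [norm_mul, Complex.norm_real, Real.norm_eq_abs, abs_div, abs_of_pos hy0]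
    field_simp
  have h2 : ‖∫ y in Ioi (0 : ℝ), ((dif N a (1 / y) : ℝ) : ℂ) * K y‖ ≤
      ∫ y in Ioi (0 : ℝ), |dif N a (1 / y) / y| * (‖K y‖ * y) := by
    refine (norm_integral_le_integral_norm _).trans (le_of_eq ?_)
    exact setIntegral_congr_fun measurableSet_Ioi e
  have h3 := cauchy (s := Ioi 0) (fun y => |dif N a (1 / y) / y|) (fun y => ‖K y‖ * y)
    (by simpa only [sq_abs] using (JJ_inv N a).1) (by simpa only [mul_pow] using hK2)
    (IntegrableOn.congr_fun h1.norm e measurableSet_Ioi)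
  simp only [sq_abs, mul_pow] at h3
  rw [(JJ_inv N a).2] at h3
  exact (pow_le_pow_left₀ (norm_nonneg _) h2 2).trans h3

/-- the final calculation -/
theorem final_calc {M η δ η' J L I W C3 X : ℝ} (hM : η < M) (hη : 0 < η) (hδ : 2 * δ * M ≤ η / 8)
    (hη' : η' = η / 8) (hJ : 0 ≤ J) (hL : 1 ≤ L) (hLM : M ≤ L) (hI0 : 0 ≤ I)
    (hI : M - I ≤ W / L + W * (C3 * (1 + Real.sqrt J)) * X)
    (hW : 0 ≤ W) (hC3 : 0 ≤ C3) (hX : 0 ≤ X)
    (hsmall : W / L + W * (C3 * 2) * X ≤ η / 4)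
    (hCS : I ^ 2 ≤ J * (L * ((1 + 2 * δ) * M + η'))) : M - η ≤ J * L := by
  by_contra hcon
  have hcon' := not_le.1 hcon
  have hM0 : 0 < M := hη.trans hM
  have hJ1 : J ≤ 1 := by
    by_contra h
    have h' := not_le.1 h
    nlinarith
  have hs : Real.sqrt J ≤ 1 := by
    have h := Real.sqrt_le_sqrt hJ1
    rwa [Real.sqrt_one] at h
  have h1 : W * (C3 * (1 + Real.sqrt J)) * X ≤ W * (C3 * 2) * X := by
    have : 1 + Real.sqrt J ≤ 2 := by linarith
    gcongr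
  have h2 : M - η / 4 ≤ I := by linarith
  have h3 : 0 ≤ M - η / 4 := by linarith
  have h4 : (M - η / 4) ^ 2 ≤ I ^ 2 := pow_le_pow_left₀ h3 h2 2
  have hδM : 0 ≤ (1 + 2 * δ) * M + η' := by
    by_contra h
    have h' := not_le.1 h
    have h5 : J * (L * ((1 + 2 * δ) * M + η')) ≤ 0 :=
      mul_nonpos_of_nonneg_of_nonpos hJ (mul_nonpos_of_nonneg_of_nonpos (by linarith) h'.le)
    nlinarith
  have h6 : J * (L * ((1 + 2 * δ) * M + η')) ≤ (M - η) * ((1 + 2 * δ) * M + η') := by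
    rw [← mul_assoc]
    exact mul_le_mul_of_nonneg_right hcon'.le hδM
  have h7 : (M - η) * ((1 + 2 * δ) * M + η') ≤ (M - η) * (M + η / 4) := by
    refine mul_le_mul_of_nonneg_left ?_ (by linarith)
    rw [hη']
    linarith
  nlinarith

/-- JOB B5. -/
theorem low (h0 : S_leg) (h1 : S_T1) (h2 : S_T2) (h3 : S_coef) : S_low := by
  intro S hS η hη
  obtain ⟨b, hb⟩ := exists_bump
  obtain ⟨M, hMd⟩ : ∃ M : ℝ, M = ∑ g ∈ S, (mz (cl g) : ℝ) ^ 2 / (1 / 4 + g ^ 2) := ⟨_, rfl⟩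
  rw [← hMd]
  have hM0 : 0 ≤ M := by
    rw [hMd]
    exact Finset.sum_nonneg fun g _ => by positivity
  rcases le_or_gt M η with hM | hM
  · filter_upwards [eventually_ge_atTop 1] with N hN a
    have h4 : (1 : ℝ) ≤ N := by exact_mod_cast hN
    have h5 : 0 ≤ JJ N a * Real.log N := mul_nonneg (JJ_nonneg N a) (Real.log_nonneg h4)
    linarith
  have hp : ∀ g : ℝ, ∃ p : Polynomial ℝ, p.degree < mz (cl g) ∧
      p.eval 0 = (mz (cl g) : ℝ) ^ 2 ∧ ∫ u in (0 : ℝ)..1, p.eval u ^ 2 = (mz (cl g) : ℝ) ^ 2 := by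
    intro g
    rcases Nat.eq_zero_or_pos (mz (cl g)) with h | h
    · refine ⟨0, ?_, by simp [h], by simp [h]⟩
      rw [h, Polynomial.degree_zero]
      exact WithBot.bot_lt_coe _
    · obtain ⟨p, hp1, hp2, hp3⟩ := h0 _ h
      refine ⟨p, hp1, hp2, ?_⟩
      have h4 := hp3 p hp1
      rw [hp2] at h4
      rw [← h4]
      simp only [sq]
  choose p hpd hp0 hpi using hp
  obtain ⟨δ, hδd⟩ : ∃ δ : ℝ, δ = min (1 / 4) (η / (16 * (M + 1))) := ⟨_, rfl⟩
  have hδ0 : 0 < δ := by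
    rw [hδd]
    exact lt_min (by norm_num) (by positivity)
  have hδ1 : δ ≤ 1 / 4 := by
    rw [hδd]
    exact min_le_left _ _
  have hδ2 : 2 * δ * M ≤ η / 8 := by
    have h4 : δ ≤ η / (16 * (M + 1)) := by
      rw [hδd]
      exact min_le_right _ _
    rw [le_div_iff₀ (by positivity)] at h4
    nlinarith
  have hT1 : ∀ g : ℝ, ∃ C : ℝ, 0 < C ∧ (g ∈ S → ∀ L : ℝ, 1 ≤ L → ∃ κ c : ℂ,
      ‖κ‖ ≤ C ∧ ‖c‖ ≤ C * Real.exp (-((1 + δ) * L / 2)) ∧
      (∀ n : ℕ, 1 ≤ n → (n : ℝ) ≤ Real.exp L →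
        ‖∫ y in Ioi (0 : ℝ), ((Int.fract (y / (n : ℝ)) : ℝ) : ℂ) * KK b g (p g) δ L κ c y‖ ≤
          C * Real.exp (-(6 * L))) ∧
      ‖(∫ y in Ioi (1 : ℝ), KK b g (p g) δ L κ c y) - (((p g).eval 0 : ℝ) : ℂ) / cl g‖ ≤
        C / L) := by
    intro g
    by_cases hg : g ∈ S
    · obtain ⟨C, hC, hC'⟩ := h1 b hb g (p g) (hS g hg) (hpd g) δ hδ0 hδ1
      exact ⟨C, hC, fun _ => hC'⟩
    · exact ⟨1, one_pos, fun h => absurd h hg⟩
  choose C hC0 hC using hT1
  obtain ⟨w, hwd⟩ : ∃ w : ℝ → ℂ, w = fun g => 1 / (starRingEnd ℂ) (cl g) := ⟨_, rfl⟩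
  have hcl : ∀ g : ℝ, Complex.normSq (cl g) = 1 / 4 + g ^ 2 := by
    intro g
    unfold cl
    rw [Complex.normSq_apply]
    simp
    ring
  have hw1 : ∀ g : ℝ, w g * (((p g).eval 0 : ℝ) : ℂ) / cl g =
      (((mz (cl g) : ℝ) ^ 2 / (1 / 4 + g ^ 2) : ℝ) : ℂ) := by
    intro g
    have e1 : (starRingEnd ℂ) (cl g) * cl g = ((1 / 4 + g ^ 2 : ℝ) : ℂ) := by
      rw [mul_comm, Complex.mul_conj, hcl]
    rw [hwd, hp0, Complex.ofReal_div, ← e1]
    change 1 / (starRingEnd ℂ) (cl g) * _ / cl g = _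
    rw [one_div_mul_eq_div, div_div]
  have hw2 : ∀ g : ℝ, ‖w g‖ ^ 2 = 1 / (1 / 4 + g ^ 2) := by
    intro g
    rw [hwd]
    change ‖1 / (starRingEnd ℂ) (cl g)‖ ^ 2 = _
    rw [norm_div, norm_one, RCLike.norm_conj, div_pow, one_pow, Complex.sq_norm, hcl]
  obtain ⟨C0, hC0d⟩ : ∃ C0 : ℝ, C0 = ∑ g ∈ S, C g + 1 := ⟨_, rfl⟩
  have hC00 : 0 < C0 := by
    rw [hC0d]
    have := Finset.sum_nonneg fun g (_ : g ∈ S) => (hC0 g).le
    linarith
  have hCle : ∀ g ∈ S, C g ≤ C0 := by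
    intro g hg
    rw [hC0d]
    have := Finset.single_le_sum (fun g (_ : g ∈ S) => (hC0 g).le) hg
    linarith
  obtain ⟨C3, hC3, h3'⟩ := h3
  obtain ⟨W, hWd⟩ : ∃ W : ℝ, W = ∑ g ∈ S, ‖w g‖ * C g := ⟨_, rfl⟩
  have hW0 : 0 ≤ W := by
    rw [hWd]
    exact Finset.sum_nonneg fun g _ => mul_nonneg (norm_nonneg _) (hC0 g).le
  have hlog : Tendsto (fun N : ℕ => Real.log N) atTop atTop :=
    Real.tendsto_log_atTop.comp tendsto_natCast_atTop_atTop
  have hT2 := h2 b hb S p w δ C0 (η / 8) hδ0 hδ1 hC00 (by positivity)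
  have hT2' : ∀ᶠ L : ℝ in atTop, ∀ g ∈ S, ∀ κ c : ℝ → ℂ,
      (∀ g' ∈ ({g} : Finset ℝ), ‖κ g'‖ ≤ C0 ∧ ‖c g'‖ ≤ C0 * Real.exp (-((1 + δ) * L / 2))) →
      IntegrableOn (fun y : ℝ => ‖KK b g (p g) δ L (κ g) (c g) y‖ ^ 2 * y ^ 2) (Ioi 0) := by
    rw [Filter.eventually_all_finset]
    intro g _
    filter_upwards [h2 b hb {g} p (fun _ => 1) δ C0 1 hδ0 hδ1 hC00 one_pos] with L hL κ c hκ
    have h4 := (hL κ c hκ).1
    simpa only [Finset.sum_singleton, one_mul] using h4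
  have hsm : ∀ᶠ L : ℝ in atTop, W / L + W * (C3 * 2) * Real.exp (-(3 * L)) ≤ η / 4 := by
    have t1 : Tendsto (fun L : ℝ => W / L) atTop (nhds 0) := tendsto_const_nhds.div_atTop tendsto_id
    have t2 : Tendsto (fun L : ℝ => Real.exp (-(3 * L))) atTop (nhds 0) :=
      Real.tendsto_exp_neg_atTop_nhds_zero.comp (tendsto_id.const_mul_atTop (by norm_num))
    have t3 := t1.add (t2.const_mul (W * (C3 * 2)))
    rw [mul_zero, add_zero] at t3
    exact t3.eventually_le_const (by positivity)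
  filter_upwards [hlog.eventually hT2, hlog.eventually hT2', hlog.eventually hsm,
    hlog.eventually (eventually_ge_atTop (max 1 M)), eventually_ge_atTop 1]
    with N k1 k2 k3 k4 hN a
  obtain ⟨L, hL⟩ : ∃ L : ℝ, L = Real.log N := ⟨_, rfl⟩
  rw [← hL] at k1 k2 k3 k4 ⊢
  have hN' : (1 : ℝ) ≤ N := by exact_mod_cast hN
  have hexp : Real.exp L = N := by rw [hL, Real.exp_log (by linarith)]
  have hL1 : 1 ≤ L := (le_max_left _ _).trans k4
  have hLM : M ≤ L := (le_max_right _ _).trans k4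
  have hκ : ∀ g : ℝ, ∃ κ c : ℂ, g ∈ S → (‖κ‖ ≤ C g ∧ ‖c‖ ≤ C g * Real.exp (-((1 + δ) * L / 2)) ∧
      (∀ n : ℕ, 1 ≤ n → (n : ℝ) ≤ Real.exp L →
        ‖∫ y in Ioi (0 : ℝ), ((Int.fract (y / (n : ℝ)) : ℝ) : ℂ) * KK b g (p g) δ L κ c y‖ ≤
          C g * Real.exp (-(6 * L))) ∧
      ‖(∫ y in Ioi (1 : ℝ), KK b g (p g) δ L κ c y) - (((p g).eval 0 : ℝ) : ℂ) / cl g‖ ≤
        C g / L) := by
    intro g
    by_cases hg : g ∈ S
    · obtain ⟨κ, c, h⟩ := hC g hg L hL1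
      exact ⟨κ, c, fun _ => h⟩
    · exact ⟨0, 0, fun h => absurd h hg⟩
  choose κ c hκc using hκ
  have hbd : ∀ g ∈ S, ‖κ g‖ ≤ C0 ∧ ‖c g‖ ≤ C0 * Real.exp (-((1 + δ) * L / 2)) := by
    intro g hg
    obtain ⟨q1, q2, _, _⟩ := hκc g hg
    exact ⟨q1.trans (hCle g hg),
      q2.trans (mul_le_mul_of_nonneg_right (hCle g hg) (Real.exp_pos _).le)⟩
  obtain ⟨r1, r2⟩ := k1 κ c hbd
  obtain ⟨k, hk⟩ : ∃ k : ℝ → ℂ, k = fun y => ∑ g ∈ S, w g * KK b g (p g) δ L (κ g) (c g) y :=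
    ⟨_, rfl⟩
  have hKm : ∀ g : ℝ, Measurable (KK b g (p g) δ L (κ g) (c g)) :=
    fun g => measurable_KK hb _ _ _ _ _ _
  have hkm : Measurable k := by
    rw [hk]
    exact Finset.measurable_sum _ fun g _ => (hKm g).const_mul _
  have hk2 : IntegrableOn (fun y : ℝ => ‖k y‖ ^ 2 * y ^ 2) (Ioi 0) := by
    rw [hk]
    exact r1
  have hK2 : ∀ g ∈ S,
      IntegrableOn (fun y : ℝ => ‖KK b g (p g) δ L (κ g) (c g) y‖ ^ 2 * y ^ 2) (Ioi 0) := by
    intro g hg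
    refine k2 g hg κ c fun g' hg' => ?_
    rw [Finset.mem_singleton] at hg'
    rw [hg']
    exact hbd g hg
  have hsum : ∑ g ∈ S, ‖w g‖ ^ 2 * (∫ u in (0 : ℝ)..1, (p g).eval u ^ 2) = M := by
    rw [hMd]
    refine Finset.sum_congr rfl fun g _ => ?_
    rw [hw2, hpi]
    ring
  rw [hsum] at r2
  have hpair := (pair N a hkm hk2).2
  have hCS : ‖∫ y in Ioi (0 : ℝ), ((dif N a (1 / y) : ℝ) : ℂ) * k y‖ ^ 2 ≤
      JJ N a * (L * ((1 + 2 * δ) * M + η / 8)) := by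
    refine (pair_le N a hkm hk2).trans (mul_le_mul_of_nonneg_left ?_ (JJ_nonneg N a))
    rw [hk]
    exact r2
  -- the main term
  have hmain : ‖(∫ y in Ioi (1 : ℝ), k y) - (M : ℂ)‖ ≤ W / L := by
    have e1 : ∫ y in Ioi (1 : ℝ), k y =
        ∑ g ∈ S, w g * ∫ y in Ioi (1 : ℝ), KK b g (p g) δ L (κ g) (c g) y := by
      rw [hk, integral_finsetSum _ fun g hg => (int1 (hKm g) (hK2 g hg)).const_mul _]
      exact Finset.sum_congr rfl fun g _ => integral_const_mul _ _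
    have e2 : (M : ℂ) = ∑ g ∈ S, w g * ((((p g).eval 0 : ℝ) : ℂ) / cl g) := by
      rw [hMd, Complex.ofReal_sum]
      refine Finset.sum_congr rfl fun g _ => ?_
      rw [← hw1, mul_div_assoc]
    rw [e1, e2, ← Finset.sum_sub_distrib]
    refine (norm_sum_le _ _).trans ?_
    rw [hWd, Finset.sum_div]
    refine Finset.sum_le_sum fun g hg => ?_
    rw [← mul_sub, norm_mul, mul_div_assoc]
    exact mul_le_mul_of_nonneg_left (hκc g hg).2.2.2 (norm_nonneg _)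
  -- the orthogonality
  have horth : ‖∑ n ∈ Finset.Icc 1 N, (a n : ℂ) *
      ∫ y in Ioi (0 : ℝ), ((Int.fract (y / (n : ℝ)) : ℝ) : ℂ) * k y‖ ≤
      W * (C3 * (1 + Real.sqrt (JJ N a))) * Real.exp (-(3 * L)) := by
    have e1 : ∀ n ∈ Finset.Icc 1 N,
        ‖(a n : ℂ) * ∫ y in Ioi (0 : ℝ), ((Int.fract (y / (n : ℝ)) : ℝ) : ℂ) * k y‖ ≤
        |a n| * (W * Real.exp (-(6 * L))) := by
      intro n hn
      have hn1 := Finset.mem_Icc.1 hn
      rw [norm_mul, Complex.norm_real, Real.norm_eq_abs]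
      refine mul_le_mul_of_nonneg_left ?_ (abs_nonneg _)
      have e2 : ∫ y in Ioi (0 : ℝ), ((Int.fract (y / (n : ℝ)) : ℝ) : ℂ) * k y =
          ∑ g ∈ S, w g * ∫ y in Ioi (0 : ℝ), ((Int.fract (y / (n : ℝ)) : ℝ) : ℂ) *
            KK b g (p g) δ L (κ g) (c g) y := by
        have e3 : (fun y : ℝ => ((Int.fract (y / (n : ℝ)) : ℝ) : ℂ) * k y) = fun y =>
            ∑ g ∈ S, w g * (((Int.fract (y / (n : ℝ)) : ℝ) : ℂ) *
              KK b g (p g) δ L (κ g) (c g) y) := by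
          funext y
          rw [hk, Finset.mul_sum]
          refine Finset.sum_congr rfl fun g _ => ?_
          ring
        rw [e3, integral_finsetSum _ fun g hg => (intfr (hKm g) (hK2 g hg) n hn1.1).const_mul _]
        exact Finset.sum_congr rfl fun g _ => integral_const_mul _ _
      rw [e2]
      refine (norm_sum_le _ _).trans ?_
      rw [hWd, Finset.sum_mul]
      refine Finset.sum_le_sum fun g hg => ?_
      rw [norm_mul, mul_assoc]
      refine mul_le_mul_of_nonneg_left ?_ (norm_nonneg _)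
      refine (hκc g hg).2.2.1 n hn1.1 ?_
      rw [hexp]
      exact_mod_cast hn1.2
    refine (norm_sum_le _ _).trans ((Finset.sum_le_sum e1).trans ?_)
    rw [← Finset.sum_mul]
    have e4 := (h3' N a hN).2
    have e5 : (N : ℝ) ^ 3 * Real.exp (-(6 * L)) = Real.exp (-(3 * L)) := by
      rw [← hexp, ← Real.exp_nat_mul, ← Real.exp_add]
      congr 1
      push_cast
      ring
    calc (∑ n ∈ Finset.Icc 1 N, |a n|) * (W * Real.exp (-(6 * L)))
        ≤ (C3 * (N : ℝ) ^ 3 * (1 + Real.sqrt (JJ N a))) * (W * Real.exp (-(6 * L))) :=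
          mul_le_mul_of_nonneg_right e4 (by positivity)
      _ = W * (C3 * (1 + Real.sqrt (JJ N a))) * ((N : ℝ) ^ 3 * Real.exp (-(6 * L))) := by ring
      _ = _ := by rw [e5]
  refine final_calc hM hη hδ2 rfl (JJ_nonneg N a) hL1 hLM (norm_nonneg _) ?_ hW0 hC3.le
    (Real.exp_pos _).le k3 hCS
  rw [hpair]
  have e6 : M ≤ ‖(M : ℂ)‖ := by
    rw [Complex.norm_real, Real.norm_eq_abs]
    exact le_abs_self M
  have e7 : (M : ℂ) = ((∫ y in Ioi (1 : ℝ), k y) - ∑ n ∈ Finset.Icc 1 N, (a n : ℂ) *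
      ∫ y in Ioi (0 : ℝ), ((Int.fract (y / (n : ℝ)) : ℝ) : ℂ) * k y) -
      ((∫ y in Ioi (1 : ℝ), k y) - (M : ℂ)) + ∑ n ∈ Finset.Icc 1 N, (a n : ℂ) *
      ∫ y in Ioi (0 : ℝ), ((Int.fract (y / (n : ℝ)) : ℝ) : ℂ) * k y := by
    ring
  have e8 : ‖(M : ℂ)‖ ≤ ‖((∫ y in Ioi (1 : ℝ), k y) - ∑ n ∈ Finset.Icc 1 N, (a n : ℂ) *
      ∫ y in Ioi (0 : ℝ), ((Int.fract (y / (n : ℝ)) : ℝ) : ℂ) * k y)‖ +
      ‖(∫ y in Ioi (1 : ℝ), k y) - (M : ℂ)‖ + ‖∑ n ∈ Finset.Icc 1 N, (a n : ℂ) *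
      ∫ y in Ioi (0 : ℝ), ((Int.fract (y / (n : ℝ)) : ℝ) : ℂ) * k y‖ := by
    conv_lhs => rw [e7]
    exact (norm_add_le _ _).trans (add_le_add (norm_sub_le _ _) le_rfl)
  linarith

end Pool.Agent.Q202.BD
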